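import Pool.Agent.H83.REC.CNum
import Pool.Agent.H2.GEN.Act2

/-!
# The activity numbers exist, for all side information

`actN_exists'`: as `Pool.GEN.actN_exists`, without any condition on the number of values of the
points and of the side information.
-/

set_option autoImplicit false

namespace Pool.REX83

open Finset Real
open Pool.Agent.H49.Ent Pool.Agent.H32.Dense Pool.STK Pool.KA Pool.K2S Pool.PB Pool.S6C
open Pool.GEN

variable {m J : ℕ}

/-- Numbers at the rational scales are sufficient. -/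
theorem actN_of_rat {S' : PCl m} (hne : S'.Ne) (hpos' : Bas S' (fun _ F A => 0 < Pe F.p A))
    (hrat : ∀ (κ : Finset (Fin m)) (p q : Q01), ∃ ρ : ℝ, ∀ h : ℝ, 0 < h →
      Bas S' (fun J F A => |blk F κ A ⌊((p : ℚ) : ℝ) * J⌋₊ ⌊((q : ℚ) : ℝ) * J⌋₊ - ρ * J| ≤
        h * J)) : ∃ N : Finset (Fin m) → ℝ → ℝ → ℝ, ActN S' N := by
  classical
  have hl2 : 0 < Real.log 2 := Real.log_pos (by norm_num)
  have hC : 0 ≤ (m : ℝ) * Real.log 2 := by positivity
  have hex : ∀ κ : Finset (Fin m), ∃ r : ℝ → ℝ → ℝ,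
      (∀ x y x' y' : ℝ, r x y ≤ r x' y' + m * Real.log 2 * (|x - x'| + |y - y'|)) ∧
      ∀ x y : ℝ, 0 ≤ x → x ≤ 1 → 0 ≤ y → y ≤ 1 → ∀ h : ℝ, 0 < h → Bas S' (fun J F A =>
        |blk F κ A ⌊x * J⌋₊ ⌊y * J⌋₊ - r x y * J| ≤ h * J) := fun κ =>
    nums2 hne (f := fun J F A k l => blk F κ A k l) hC (hrat κ)
      (Bas.mono 0 hpos' (fun J _ F A hA k k' l l' _ _ _ _ => blk_near hA κ k k' l l'))
  choose r hr1 hr2 using hex
  have hnum : ∀ (κ : Finset (Fin m)) (x y : ℝ), 0 ≤ x → x ≤ 1 → 0 ≤ y → y ≤ 1 →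
      Nbr S' (fun J F A => blk F κ A ⌊x * J⌋₊ ⌊y * J⌋₊) (r κ x y / Real.log 2 * Real.log 2) := by
    intro κ x y h1 h2 h3 h4
    rw [div_mul_cancel₀ _ hl2.ne']
    exact hr2 κ x y h1 h2 h3 h4
  have cancel : ∀ {a b c : ℝ}, a * Real.log 2 ≤ b * Real.log 2 + c * Real.log 2 → a ≤ b + c := by
    intro a b c h
    rw [← add_mul] at h
    exact le_of_mul_le_mul_right h hl2
  refine ⟨fun κ x y => r κ x y / Real.log 2, hnum, ?_, ?_, ?_, ?_, ?_, ?_, ?_⟩
  · intro κ x y x' y'
    have h1 := hr1 κ x y x' y'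
    rw [div_le_iff₀ hl2, add_mul, div_mul_cancel₀ _ hl2.ne']
    refine h1.trans (le_of_eq ?_)
    ring
  · intro κ x y h1 h2 h3 h4
    refine (cancel (a := 0) (b := r κ x y / Real.log 2) (c := 0) ?_).trans
      (le_of_eq (add_zero _))
    have := Nbr.le (c := 0) (C := 0) hne (Nbr.zero S') (hnum κ x y h1 h2 h3 h4)
      (Bas.mono 0 hpos' (fun J _ F A hA => by
        have := blk_nonneg hA κ ⌊x * J⌋₊ ⌊y * J⌋₊
        linarith))
    linarith
  · intro κ x y h1 h2 h3
    have h0y : 0 ≤ y := h1.trans h2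
    have := Nbr.le (c := m * (y - x) * Real.log 2) (C := m * Real.log 2) hne
      (hnum κ x y h1 (h2.trans h3) h0y h3) (Nbr.zero S')
      (Bas.mono 0 hpos' (fun J _ F A hA => by
        have hJ0 : (0 : ℝ) ≤ J := Nat.cast_nonneg J
        have b1 := blk_le hA κ (Nat.floor_le_floor (mul_le_mul_of_nonneg_right h2 hJ0))
        have b2 := Nat.floor_le (show 0 ≤ y * (J : ℝ) by positivity)
        have b3 := Nat.lt_floor_add_one (x * (J : ℝ))
        have b4 : ((⌊y * (J : ℝ)⌋₊ : ℕ) : ℝ) - ⌊x * (J : ℝ)⌋₊ ≤ (y - x) * J + 1 := by linarith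
        have b5 := mul_le_mul_of_nonneg_left b4 hC
        have e1 : (m : ℝ) * Real.log 2 * ((y - x) * J + 1) =
          m * (y - x) * Real.log 2 * J + m * Real.log 2 := by ring
        linarith))
    have h5 := cancel (a := r κ x y / Real.log 2) (b := 0) (c := m * (y - x)) (by linarith)
    simpa using h5
  · intro κ x y z h1 h2 h3 h4
    have h0y : 0 ≤ y := h1.trans h2
    have h0z : 0 ≤ z := h0y.trans h3
    have hy1 : y ≤ 1 := h3.trans h4
    have hx1 : x ≤ 1 := h2.trans hy1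
    have := Nbr.le (c := 0) (C := 0) hne
      ((hnum κ x y h1 hx1 h0y hy1).add (hnum κ y z h0y hy1 h0z h4)) (hnum κ x z h1 hx1 h0z h4)
      (Bas.mono 0 hpos' (fun J _ F A hA => by
        have hJ0 : (0 : ℝ) ≤ J := Nat.cast_nonneg J
        have := blk_sup hA κ (Nat.floor_le_floor (mul_le_mul_of_nonneg_right h2 hJ0))
          (Nat.floor_le_floor (mul_le_mul_of_nonneg_right h3 hJ0))
        linarith))
    rw [← add_mul] at this
    have h5 := cancel (a := r κ x y / Real.log 2 + r κ y z / Real.log 2)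
      (b := r κ x z / Real.log 2) (c := 0) (by linarith)
    simpa using h5
  · intro x y z h1 h2 h3 h4
    have h0y : 0 ≤ y := h1.trans h2
    have h0z : 0 ≤ z := h0y.trans h3
    have hy1 : y ≤ 1 := h3.trans h4
    have hx1 : x ≤ 1 := h2.trans hy1
    refine le_antisymm ?_ ?_
    · have := Nbr.le (c := 0) (C := 0) hne
        ((hnum univ x y h1 hx1 h0y hy1).add (hnum univ y z h0y hy1 h0z h4))
        (hnum univ x z h1 hx1 h0z h4)
        (Bas.mono 0 hpos' (fun J _ F A hA => by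
          have hJ0 : (0 : ℝ) ≤ J := Nat.cast_nonneg J
          have := blk_sup hA univ (Nat.floor_le_floor (mul_le_mul_of_nonneg_right h2 hJ0))
            (Nat.floor_le_floor (mul_le_mul_of_nonneg_right h3 hJ0))
          linarith))
      rw [← add_mul] at this
      have h5 := cancel (a := r univ x y / Real.log 2 + r univ y z / Real.log 2)
        (b := r univ x z / Real.log 2) (c := 0) (by linarith)
      simpa using h5
    · have := Nbr.le (c := 0) (C := 0) hne (hnum univ x z h1 hx1 h0z h4)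
        ((hnum univ x y h1 hx1 h0y hy1).add (hnum univ y z h0y hy1 h0z h4))
        (Bas.mono 0 hpos' (fun J _ F A hA => by
          have hJ0 : (0 : ℝ) ≤ J := Nat.cast_nonneg J
          have := blk_add hA (k := ⌊x * J⌋₊)
            (Nat.floor_le_floor (mul_le_mul_of_nonneg_right h3 hJ0))
          linarith))
      rw [← add_mul] at this
      have h5 := cancel (a := r univ x z / Real.log 2)
        (b := r univ x y / Real.log 2 + r univ y z / Real.log 2) (c := 0) (by linarith)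
      simpa using h5
  · intro x y h1 h2 h3
    have h0y : 0 ≤ y := h1.trans h2
    have hx1 : x ≤ 1 := h2.trans h3
    have := Nbr.le (c := 0) (C := 0) hne (hnum univ x y h1 hx1 h0y h3)
      (Nbr.sum univ fun i _ => hnum {i} x y h1 hx1 h0y h3)
      (Bas.mono 0 hpos' (fun J _ F A hA => by
        have := blk_sum hA univ ⌊x * J⌋₊ ⌊y * J⌋₊
        linarith))
    rw [← Finset.sum_mul] at this
    have h5 := cancel (a := r univ x y / Real.log 2)
      (b := ∑ i, r {i} x y / Real.log 2) (c := 0) (by linarith)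
    simpa using h5
  · intro g hg0 hg1 h hh
    have hcc : 0 ≤ Real.log (3 ^ m) := Real.log_nonneg (one_le_pow₀ (by norm_num))
    obtain ⟨J₂, hJ₂⟩ := exists_nat_gt (2 * Real.log (3 ^ m) / h)
    refine Bas.mono J₂ ((hnum univ 0 g le_rfl zero_le_one hg0 hg1 (h / 2) (half_pos hh)).and
      hpos') ?_
    rintro J hJ F A ⟨k1, k2⟩
    have hJ3 : 2 * Real.log (3 ^ m) ≤ h * J := by
      have : 2 * Real.log (3 ^ m) / h < J := hJ₂.trans_le (by exact_mod_cast hJ)
      rw [div_lt_iff₀ hh] at this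
      linarith
    have e0 : ⌊(0 : ℝ) * J⌋₊ = 0 := by simp
    simp only [e0] at k1
    obtain ⟨b1, b2⟩ := blk_act k2 ⌊g * J⌋₊
    rw [abs_le] at k1 ⊢
    simp only
    constructor <;> linarith [k1.1, k1.2]


/-- **The activity numbers exist.** -/
theorem actN_exists' {S : PCl m} (hS : S.Ne)
    (hpos : ∀ (τ : ℝ) (J : ℕ) (F : Fam m J) (A : F.Ω → Prop), S.St τ J F A → 0 < Pe F.p A) :
    ∃ (S' : PCl m) (N : Finset (Fin m) → ℝ → ℝ → ℝ), S'.Ne ∧
      (∀ (τ : ℝ) (J : ℕ) (F : Fam m J) (A : F.Ω → Prop), S'.St τ J F A → S.St τ J F A) ∧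
      ActN S' N := by
  classical
  have : Nonempty (Finset (Fin m) × Q01 × Q01) := ⟨(∅, q0, q0)⟩
  obtain ⟨e, he⟩ := exists_surjective_nat (Finset (Fin m) × Q01 × Q01)
  have h6 : Real.exp (Real.log 6) = 6 := Real.exp_log (by norm_num)
  obtain ⟨S', hne, hsub, hη⟩ := ext_cond hS hpos
    (fun _ _ _ => Fin m → ℤ) (fun _ _ F => (Fin m → ℤ) × ((Fin m → ℤ) × (ℕ × F.ζ)))
    (fun i J F ω => prjK (e i).1 (F.D ⌊(((e i).2.2 : ℚ) : ℝ) * J⌋₊ ω))
    (fun i J F ω => (F.D ⌊(((e i).2.1 : ℚ) : ℝ) * J⌋₊ ω, (F.X J ω, F.W ω)))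
    (fun _ => m * Real.log 6) (fun i => ⟨1, one_pos, 1, fun J hJ1 F A _ => by
      obtain ⟨l, hl⟩ : ∃ l, l = ⌊(((e i).2.2 : ℚ) : ℝ) * J⌋₊ := ⟨_, rfl⟩
      rw [← hl]
      have hlJ : l ≤ J := by
        rw [hl]
        exact fl_le1 (q01 (e i).2.2).2 J
      have h1 := cnt_le_card F.p (fun ω => prjK (e i).1 (F.D l ω)) (A := A)
        ((Fintype.piFinset fun _ : Fin m => Finset.Icc (-(2 : ℤ) ^ l) (2 ^ l)).image
          (prjK (e i).1)) (fun ω _ _ => mem_image_of_mem _ (D_mem F l ω))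
      have h2 : (Fintype.piFinset fun _ : Fin m =>
          Finset.Icc (-(2 : ℤ) ^ l) (2 ^ l)).card ≤ (6 ^ J) ^ m := by
        rw [Fintype.card_piFinset, Finset.prod_const, Finset.card_univ, Fintype.card_fin]
        refine Nat.pow_le_pow_left ?_ m
        rw [Int.card_Icc]
        have h3 : ((2 : ℤ) ^ l + 1 - -(2 : ℤ) ^ l).toNat ≤ ((3 * 2 ^ l : ℕ) : ℤ).toNat := by
          refine Int.toNat_le_toNat ?_
          have : (1 : ℤ) ≤ 2 ^ l := one_le_pow₀ (by norm_num)
          push_cast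
          linarith
        rw [Int.toNat_natCast] at h3
        refine h3.trans ?_
        calc 3 * 2 ^ l ≤ 3 ^ J * 2 ^ J := by
              refine Nat.mul_le_mul ?_ (Nat.pow_le_pow_right (by norm_num) hlJ)
              calc 3 = 3 ^ 1 := (pow_one _).symm
                _ ≤ 3 ^ J := Nat.pow_le_pow_right (by norm_num) hJ1
          _ = 6 ^ J := by rw [← Nat.mul_pow]
      have h3 : cnt F.p (fun ω => prjK (e i).1 (F.D l ω)) A ≤ (6 ^ J) ^ m :=
        h1.trans (card_image_le.trans h2)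
      have e1 : (m : ℝ) * Real.log 6 * J = Real.log 6 * ((J * m : ℕ) : ℝ) := by
        push_cast
        ring
      rw [e1, Real.exp_mul, h6, Real.rpow_natCast, pow_mul]
      exact_mod_cast h3⟩)
  have hpos' : Bas S' (fun _ F A => 0 < Pe F.p A) :=
    ⟨1, one_pos, 0, fun J _ F A hA => hpos 1 J F A (hsub 1 J F A hA)⟩
  obtain ⟨N, hN⟩ := actN_of_rat hne hpos' (fun κ p q => by
    obtain ⟨i, hi⟩ := he (κ, p, q)
    obtain ⟨η, hη1⟩ := hη i
    refine ⟨η, fun h hh => Bas.mono 0 (hη1 h hh) ?_⟩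
    intro J _ F A k1
    simp only [hi] at k1
    exact k1)
  exact ⟨S', N, hne, hsub, hN⟩

/-- Activity numbers of a class are activity numbers of the smaller classes. -/
theorem actN_of_bas {S S' : PCl m} {N : Finset (Fin m) → ℝ → ℝ → ℝ}
    (hb : ∀ Φ : Stat m, Bas S Φ → Bas S' Φ) (hN : ActN S N) : ActN S' N where
  num κ x y h1 h2 h3 h4 h hh := hb _ (hN.num κ x y h1 h2 h3 h4 h hh)
  lip := hN.lip
  nonneg := hN.nonneg
  le := hN.le
  sup := hN.sup
  add := hN.add
  sum := hN.sum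
  act g h1 h2 h hh := hb _ (hN.act g h1 h2 h hh)

end Pool.REX83
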