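import Pool.Agent.H83.REC.Gen
import Pool.Agent.H83.REC.ActE
import Pool.Agent.H72.REC.ExaV

/-!
# Exactness behind records: existence of the data

Countably many zooms `v i` of coordinates `ε i`: in one subclass all the classes of windows
`WyV S (v i) (ε i)` have activity numbers (`wyv_act`), and all the classes of tubes
`RecV S (v i) (ε i)` have numbers of closed labels (`recv_lam`). For a generic level `e` the tubes
`p i`, where the activity of the whole direction reaches `e / (1 - b i)`, have an active coordinate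
(`rec_lev`). `rexv_all`: exactness for countably many zooms, at all windows outside a countable
set.
-/

set_option autoImplicit false

namespace Pool.REX83

open Finset Real
open Pool.Agent.H49.Ent Pool.Agent.H32.Dense Pool.STK Pool.KA Pool.KSAT Pool.K2S Pool.PB Pool.S6C
open Pool.GEN Pool.REX

variable {m n J : ℕ}

/-! ### The diagonal -/

/-- **The diagonal**: countably many properties of classes, which hold in smaller classes. -/
theorem diag_all {S : PCl m} (hS : S.Ne) {ι : Type} [Countable ι] (Q : ι → PCl m → Prop)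
    (down : ∀ (i : ι) (S₁ S₂ : PCl m), S₂.Le S₁ → Q i S₁ → Q i S₂)
    (ex : ∀ (i : ι) (S₁ : PCl m), S₁.Le S → S₁.Ne → ∃ P : Sld m, Q i (S₁.sl P) ∧ (S₁.sl P).Ne) :
    ∃ S' : PCl m, S'.Ne ∧
      (∀ (τ : ℝ) (J : ℕ) (F : Fam m J) (A : F.Ω → Prop), S'.St τ J F A → S.St τ J F A) ∧
      ∀ i, Q i S' := by
  rcases isEmpty_or_nonempty ι with hem | hne
  · exact ⟨S, hS, fun _ _ _ _ h => h, fun i => hem.elim i⟩
  obtain ⟨f, hf⟩ := exists_surjective_nat ι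
  obtain ⟨S', h1, h2, -, h4⟩ := hS.diag (fun k S₁ P => Q (f k) (S₁.sl P))
    (fun k S₁ hle hn => ex (f k) S₁ hle hn)
  refine ⟨S', h1, h2, fun i => ?_⟩
  obtain ⟨k, rfl⟩ := hf i
  obtain ⟨S₁, P, hQ, -, -, hle, -⟩ := h4 k
  exact down (f k) _ _ hle hQ

theorem sub_le {S S' : PCl m} (h : ∀ (τ : ℝ) (J : ℕ) (F : Fam m J) (A : F.Ω → Prop),
    S'.St τ J F A → S.St τ J F A) : S'.Le S := ⟨1, one_pos, fun τ _ _ J F A hA => h τ J F A hA⟩

/-! ### The windows -/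

section win

variable (v : Vz m) (ε : Fin n → Fin m)

theorem wyv_le {S₁ S₂ : PCl m} (h : S₂.Le S₁) {Φ : Stat n} (hb : Bas (WyV S₁ v ε) Φ) :
    Bas (WyV S₂ v ε) Φ := by
  obtain ⟨τ₀, hτ₀, h⟩ := h
  obtain ⟨τ, hτ, J₁, hb⟩ := hb
  refine ⟨min τ τ₀, lt_min hτ hτ₀, J₁, fun J hJ F A hA => hb J hJ F A ?_⟩
  obtain ⟨J, F, A, hS⟩ := hA
  exact WyVSt.mk J F A (S₁.mono (min_le_left _ _)
    (h _ (lt_min hτ hτ₀) (min_le_right _ _) J F A hS))

theorem win_floor (J : ℕ) : (J : ℝ) ≤ 1 / (1 - v.b) * ((J - v.B J : ℕ) : ℝ) := by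
  have hJ : (0 : ℝ) ≤ J := Nat.cast_nonneg J
  have hb := v.b0
  have hb1 := v.b1
  have h1 : (v.B J : ℝ) ≤ v.b * J := Nat.floor_le (by positivity)
  have h2 := (v.floor_le J).1
  rw [Nat.cast_sub h2, one_div, ← div_eq_inv_mul, le_div_iff₀ (by linarith)]
  linarith

/-- The families whose windows are in a class. -/
noncomputable def slW (S' : PCl n) : Sld m where
  P τ J F A := S'.St (1 / (1 - v.b) * τ) (J - v.B J) (v.winV ε F) A
  mono := by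
    intro τ τ' J F A h h1
    have hb1 := v.b1
    have : 0 < 1 - v.b := by linarith
    exact S'.mono (mul_le_mul_of_nonneg_left h (by positivity)) h1
  res := by
    intro τ τ' J F A B h0 h1 hB hP
    have hb1 := v.b1
    have hc : 0 < 1 - v.b := by linarith
    rw [mul_add]
    refine S'.res (by positivity) h1 hB (le_trans ?_ hP)
    refine mul_le_mul_of_nonneg_right (Real.exp_le_exp.2 (neg_le_neg ?_)) (Pe_nonneg F.isLaw A)
    calc τ' * (J : ℝ) ≤ τ' * (1 / (1 - v.b) * ((J - v.B J : ℕ) : ℝ)) :=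
          mul_le_mul_of_nonneg_left (win_floor v J) h0
      _ = 1 / (1 - v.b) * τ' * ((J - v.B J : ℕ) : ℝ) := by ring

theorem slW_ne {S₁ : PCl m} {S' : PCl n} (hne : S'.Ne)
    (hsub : ∀ (τ : ℝ) (J : ℕ) (F : Fam n J) (A : F.Ω → Prop), S'.St τ J F A →
      (WyV S₁ v ε).St τ J F A) : (S₁.sl (slW v ε S')).Ne := by
  have hb := v.b0
  have hb1 := v.b1
  have hc : 0 < 1 - v.b := by linarith
  have h1c : 1 ≤ 1 / (1 - v.b) := by
    rw [le_div_iff₀ hc]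
    linarith
  intro τ hτ J₁
  obtain ⟨J, hJ, G, A, hA⟩ := hne τ hτ J₁
  have hA' := hsub τ J G A hA
  have key : ∀ (J : ℕ) (G : Fam n J) (A : G.Ω → Prop), J₁ ≤ J → S'.St τ J G A →
      (WyV S₁ v ε).St τ J G A → ∃ J, J₁ ≤ J ∧ ∃ (F : Fam m J) (A : F.Ω → Prop),
        (S₁.sl (slW v ε S')).St τ J F A := by
    intro J G A hJ hA hA'
    obtain ⟨J, F, A, hS⟩ := hA'
    refine ⟨J, hJ.trans (Nat.sub_le _ _), F, A, hS, ?_⟩
    refine S'.mono ?_ hA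
    calc τ = 1 * τ := (one_mul τ).symm
      _ ≤ 1 / (1 - v.b) * τ := mul_le_mul_of_nonneg_right h1c hτ.le
  obtain ⟨J, hJ, F, A, h⟩ := key J G A hJ hA hA'
  exact ⟨J, hJ, F, A, h⟩

theorem slW_bas {S₁ : PCl m} {S' : PCl n} {Φ : Stat n} (hb : Bas S' Φ) :
    Bas (WyV (S₁.sl (slW v ε S')) v ε) Φ := by
  have hb1 := v.b1
  have hc : 0 < 1 - v.b := by linarith
  obtain ⟨τ, hτ, J₁, hb⟩ := hb
  refine ⟨(1 - v.b) * τ, mul_pos hc hτ, J₁, fun J hJ F A hA => ?_⟩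
  obtain ⟨J, F, A, hS⟩ := hA
  refine hb _ hJ _ _ ?_
  have h2 := hS.2
  have h3 : S'.St (1 / (1 - v.b) * ((1 - v.b) * τ)) (J - v.B J) (v.winV ε F) A := h2
  have e1 : 1 / (1 - v.b) * ((1 - v.b) * τ) = τ := by field_simp
  rwa [e1] at h3

theorem wyv_ne {S : PCl m} (hS : S.Ne) : (WyV S v ε).Ne := by
  intro τ hτ J₁
  have hb1 := v.b1
  have hc : 0 < 1 - v.b := by linarith
  obtain ⟨J₂, hJ₂⟩ := exists_nat_ge (1 / (1 - v.b) * J₁)
  obtain ⟨J, hJ, F, A, hA⟩ := hS τ hτ J₂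
  refine ⟨J - v.B J, ?_, v.winV ε F, A, WyVSt.mk J F A hA⟩
  have h3 := win_floor v J
  have h4 : (J₂ : ℝ) ≤ J := by exact_mod_cast hJ
  have h5 : 1 / (1 - v.b) * (J₁ : ℝ) ≤ 1 / (1 - v.b) * ((J - v.B J : ℕ) : ℝ) := by linarith
  have h6 : (J₁ : ℝ) ≤ ((J - v.B J : ℕ) : ℝ) := le_of_mul_le_mul_left h5 (by positivity)
  exact_mod_cast h6

theorem wyv_pos {S : PCl m} (hpos : ∀ (τ : ℝ) (J : ℕ) (F : Fam m J) (A : F.Ω → Prop),
    S.St τ J F A → 0 < Pe F.p A) : ∀ (τ : ℝ) (J : ℕ) (F : Fam n J) (A : F.Ω → Prop),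
    (WyV S v ε).St τ J F A → 0 < Pe F.p A := by
  intro τ J F A hA
  obtain ⟨J, F, A, hS⟩ := hA
  exact hpos τ J F A hS

end win

/-! ### The tubes -/

section tub

variable (v : Vz m) (ε : Fin n → Fin m)

theorem recv_le {S₁ S₂ : PCl m} (h : S₂.Le S₁) {Φ : Stat n} (hb : Bas (RecV S₁ v ε) Φ) :
    Bas (RecV S₂ v ε) Φ := by
  obtain ⟨τ₀, hτ₀, h⟩ := h
  obtain ⟨τ, hτ, J₁, hb⟩ := hb
  refine ⟨min τ τ₀, lt_min hτ hτ₀, J₁, fun J hJ F A hA => hb J hJ F A ?_⟩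
  refine recV_cases (Φ := fun J F A => (RecV S₁ v ε).St τ J F A) ?_ hA
  intro J F A hP hS
  exact recV_mk (S₁.mono (min_le_left _ _)
    (h _ (lt_min hτ hτ₀) (min_le_right _ _) J F A hS)) hP

/-- The families whose zooms are in a class. -/
noncomputable def slR (S' : PCl n) : Sld m where
  P τ J F A := ∀ h : v.P J ≤ J - v.B J,
    S'.St (1 / ((1 - v.b) * (1 - v.p)) * τ) (v.R J) (v.famV ε F h) A
  mono := by
    intro τ τ' J F A h h1 h2
    have hb1 := v.b1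
    have hp1 := v.p1
    have : 0 < (1 - v.b) * (1 - v.p) := mul_pos (by linarith) (by linarith)
    exact S'.mono (mul_le_mul_of_nonneg_left h (by positivity)) (h1 h2)
  res := by
    intro τ τ' J F A B h0 h2 hB hP h3
    have hb1 := v.b1
    have hp1 := v.p1
    have hc : 0 < (1 - v.b) * (1 - v.p) := mul_pos (by linarith) (by linarith)
    rw [mul_add]
    refine S'.res (by positivity) (h2 h3) hB (le_trans ?_ hP)
    refine mul_le_mul_of_nonneg_right (Real.exp_le_exp.2 (neg_le_neg ?_)) (Pe_nonneg F.isLaw A)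
    calc τ' * (J : ℝ) ≤ τ' * (1 / ((1 - v.b) * (1 - v.p)) * (v.R J : ℝ)) :=
          mul_le_mul_of_nonneg_left (v.floor_le J).2.2 h0
      _ = 1 / ((1 - v.b) * (1 - v.p)) * τ' * (v.R J : ℝ) := by ring

theorem slR_eq (S : PCl m) (S' : PCl n) : S.sl (slR v ε S') = pulV S v ε S' := rfl

theorem slR_ne {S₁ : PCl m} {S' : PCl n} (hne : S'.Ne)
    (hsub : ∀ (τ : ℝ) (J : ℕ) (F : Fam n J) (A : F.Ω → Prop), S'.St τ J F A →
      (RecV S₁ v ε).St τ J F A) : (S₁.sl (slR v ε S')).Ne := by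
  have hb := v.b0
  have hb1 := v.b1
  have hp := v.p0
  have hp1 := v.p1
  have hc : 0 < (1 - v.b) * (1 - v.p) := mul_pos (by linarith) (by linarith)
  have h1c : 1 ≤ 1 / ((1 - v.b) * (1 - v.p)) := by
    rw [le_div_iff₀ hc, one_mul]
    exact mul_le_one₀ (by linarith) (by linarith) (by linarith)
  intro τ hτ J₁
  obtain ⟨J, hJ, G, A, hA⟩ := hne τ hτ J₁
  have hA' := hsub τ J G A hA
  have key := recV_cases (S := S₁) (v := v) (ε := ε) (τ := τ) (Φ := fun J G A => J₁ ≤ J →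
      S'.St τ J G A → ∃ J, J₁ ≤ J ∧ ∃ (F : Fam m J) (A : F.Ω → Prop),
        (S₁.sl (slR v ε S')).St τ J F A) (by
    intro J F A hP hS hJ hA
    refine ⟨J, hJ.trans ((Nat.sub_le _ _).trans (Nat.sub_le _ _)), F, A, hS, fun _ => ?_⟩
    refine S'.mono ?_ hA
    calc τ = 1 * τ := (one_mul τ).symm
      _ ≤ 1 / ((1 - v.b) * (1 - v.p)) * τ := mul_le_mul_of_nonneg_right h1c hτ.le) hA'
  obtain ⟨J, hJ, F, A, h⟩ := key hJ hA
  exact ⟨J, hJ, F, A, h⟩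

theorem slR_bas {S₁ : PCl m} {S' : PCl n} {Φ : Stat n} (hb : Bas S' Φ) :
    Bas (RecV (S₁.sl (slR v ε S')) v ε) Φ := by
  have hb1 := v.b1
  have hp1 := v.p1
  have hc : 0 < (1 - v.b) * (1 - v.p) := mul_pos (by linarith) (by linarith)
  obtain ⟨τ, hτ, J₁, hb⟩ := hb
  refine ⟨(1 - v.b) * (1 - v.p) * τ, mul_pos hc hτ, J₁, fun J hJ F A hA => ?_⟩
  refine recV_cases (S := S₁.sl (slR v ε S')) (v := v) (ε := ε)
    (τ := (1 - v.b) * (1 - v.p) * τ) (Φ := fun J F A => J₁ ≤ J → Φ J F A) ?_ hA hJ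
  intro J F A hP hS hJ
  refine hb _ hJ _ _ ?_
  have h2 := hS.2 hP
  have e1 : 1 / ((1 - v.b) * (1 - v.p)) * ((1 - v.b) * (1 - v.p) * τ) = τ := by
    rw [← mul_assoc, one_div, inv_mul_cancel₀ hc.ne', one_mul]
  rwa [e1] at h2

theorem recv_pos {S : PCl m} (hpos : ∀ (τ : ℝ) (J : ℕ) (F : Fam m J) (A : F.Ω → Prop),
    S.St τ J F A → 0 < Pe F.p A) : ∀ (τ : ℝ) (J : ℕ) (F : Fam n J) (A : F.Ω → Prop),
    (RecV S v ε).St τ J F A → 0 < Pe F.p A := by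
  intro τ J F A hA
  exact recV_cases (Φ := fun J F A => 0 < Pe F.p A) (fun J F A hP hS => hpos τ J F A hS) hA

end tub

/-! ### Zooms of classes -/

/-- **A zoom of classes.** `W S`: the class of the zooms of the families of `S`; `sl S'`: the
families with zooms in `S'`. -/
structure ZC (m n : ℕ) where
  /-- the class of the zooms -/
  W : PCl m → PCl n
  /-- the pull-back -/
  sl : PCl n → Sld m
  le : ∀ {S₁ S₂ : PCl m}, S₂.Le S₁ → ∀ {Φ : Stat n}, Bas (W S₁) Φ → Bas (W S₂) Φ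
  ne : ∀ {S : PCl m}, S.Ne → (W S).Ne
  mono : ∀ {S S' : PCl m}, (∀ (τ : ℝ) (J : ℕ) (F : Fam m J) (A : F.Ω → Prop), S'.St τ J F A →
    S.St τ J F A) → ∀ (τ : ℝ) (J : ℕ) (F : Fam n J) (A : F.Ω → Prop), (W S').St τ J F A →
    (W S).St τ J F A
  pos : ∀ {S : PCl m}, (∀ (τ : ℝ) (J : ℕ) (F : Fam m J) (A : F.Ω → Prop),
    S.St τ J F A → 0 < Pe F.p A) → ∀ (τ : ℝ) (J : ℕ) (F : Fam n J) (A : F.Ω → Prop),
    (W S).St τ J F A → 0 < Pe F.p A
  slne : ∀ {S₁ : PCl m} {S' : PCl n}, S'.Ne →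
    (∀ (τ : ℝ) (J : ℕ) (F : Fam n J) (A : F.Ω → Prop), S'.St τ J F A → (W S₁).St τ J F A) →
    (S₁.sl (sl S')).Ne
  slbas : ∀ {S₁ : PCl m} {S' : PCl n} {Φ : Stat n}, Bas S' Φ → Bas (W (S₁.sl (sl S'))) Φ

/-- The windows. -/
noncomputable def wyZ (v : Vz m) (ε : Fin n → Fin m) : ZC m n where
  W S := WyV S v ε
  sl := slW v ε
  le h _ hb := wyv_le v ε h hb
  ne := wyv_ne v ε
  mono := by
    intro S S' h τ J F A hA
    obtain ⟨J, F, A, hS⟩ := hA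
    exact WyVSt.mk J F A (h τ J F A hS)
  pos := wyv_pos v ε
  slne := slW_ne v ε
  slbas := slW_bas v ε

/-- The tubes. -/
noncomputable def reZ (v : Vz m) (ε : Fin n → Fin m) : ZC m n where
  W S := RecV S v ε
  sl := slR v ε
  le h _ hb := recv_le v ε h hb
  ne hS := recV_ne hS v ε
  mono := by
    intro S S' h τ J F A hA
    exact recV_cases (Φ := fun J F A => (RecV S v ε).St τ J F A)
      (fun J F A hP hS => recV_mk (h τ J F A hS) hP) hA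
  pos := recv_pos v ε
  slne := slR_ne v ε
  slbas := slR_bas v ε

/-- The families in which the events have positive probability. -/
def posC (S : PCl m) : PCl m where
  St τ J F A := S.St τ J F A ∧ 0 < Pe F.p A
  mono h hA := ⟨S.mono h hA.1, hA.2⟩
  res h hA hB hP := ⟨S.res h hA.1 hB hP, lt_of_lt_of_le (mul_pos (Real.exp_pos _) hA.2) hP⟩

theorem posC_ne {S S₁ : PCl m} (hle : S₁.Le S) (hn : S₁.Ne)
    (hpos : ∀ (τ : ℝ) (J : ℕ) (F : Fam m J) (A : F.Ω → Prop), S.St τ J F A → 0 < Pe F.p A) :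
    (posC S₁).Ne := by
  obtain ⟨τ₁, hτ₁, hle⟩ := hle
  intro τ hτ J₁
  obtain ⟨J, hJ, F, A, hA⟩ := hn (min τ τ₁) (lt_min hτ hτ₁) J₁
  exact ⟨J, hJ, F, A, S₁.mono (min_le_left _ _) hA,
    hpos _ J F A (hle _ (lt_min hτ hτ₁) (min_le_right _ _) J F A hA)⟩

/-- **The activity numbers of countably many zooms.** -/
theorem act_all {S : PCl m} (hS : S.Ne)
    (hpos : ∀ (τ : ℝ) (J : ℕ) (F : Fam m J) (A : F.Ω → Prop), S.St τ J F A → 0 < Pe F.p A)
    {ι : Type} [Countable ι] (k : ι → ℕ) (Z : ∀ i, ZC m (k i)) :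
    ∃ (S' : PCl m) (N : ∀ i, Finset (Fin (k i)) → ℝ → ℝ → ℝ), S'.Ne ∧
      (∀ (τ : ℝ) (J : ℕ) (F : Fam m J) (A : F.Ω → Prop), S'.St τ J F A → S.St τ J F A) ∧
      ∀ i, ActN ((Z i).W S') (N i) := by
  obtain ⟨S', h1, h2, h3⟩ := diag_all hS (fun i (S₁ : PCl m) => ∃ N, ActN ((Z i).W S₁) N)
    (fun i S₁ S₂ hle h => by
      obtain ⟨N, hN⟩ := h
      exact ⟨N, actN_of_bas (fun Φ hb => (Z i).le hle hb) hN⟩)
    (fun i S₁ hle hn => by
      obtain ⟨S₃, N, hne, hsub, hN⟩ := actN_exists' ((Z i).ne (posC_ne hle hn hpos))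
        ((Z i).pos (fun τ J F A hA => hA.2))
      exact ⟨(Z i).sl S₃, ⟨N, actN_of_bas (fun Φ hb => (Z i).slbas hb) hN⟩,
        (Z i).slne hne fun τ J F A hA => (Z i).mono (S := S₁) (S' := posC S₁)
          (fun _ _ _ _ h => h.1) τ J F A (hsub τ J F A hA)⟩)
  choose N hN using h3
  exact ⟨S', N, h1, h2, hN⟩

/-- The numbers of the closed labels of a class are numbers of the smaller classes. -/
theorem lamW_of_bas {S S' : PCl m} {L : Finset (Fin m) → Fin m → ℝ → ℝ → ℝ}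
    (hb : ∀ Φ : Stat m, Bas S Φ → Bas S' Φ) (hL : LamW S L) : LamW S' L where
  le1 := hL.le1
  low := hL.low
  mono := hL.mono
  att I k w' w r e h1 h2 h3 h4 := by
    obtain ⟨K, hK⟩ := hL.att I k w' w r e h1 h2 h3 h4
    exact ⟨K, hb _ hK⟩
  abs I k w r h' h1 h2 := by
    obtain ⟨d, hd, hd1, h3⟩ := hL.abs I k w r h' h1 h2
    exact ⟨d, hd, hd1, fun d' hd' K => hb _ (h3 d' hd' K)⟩

/-- **The numbers of the closed labels of countably many zooms.** -/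
theorem lam_all {S : PCl m} (hS : S.Ne) {ι : Type} [Countable ι] (k : ι → ℕ)
    (Z : ∀ i, ZC m (k i)) :
    ∃ (S' : PCl m) (L : ∀ i, Finset (Fin (k i)) → Fin (k i) → ℝ → ℝ → ℝ), S'.Ne ∧
      (∀ (τ : ℝ) (J : ℕ) (F : Fam m J) (A : F.Ω → Prop), S'.St τ J F A → S.St τ J F A) ∧
      ∀ i, LamW ((Z i).W S') (L i) := by
  obtain ⟨S', h1, h2, h3⟩ := diag_all hS (fun i (S₁ : PCl m) => ∃ L, LamW ((Z i).W S₁) L)
    (fun i S₁ S₂ hle h => by
      obtain ⟨L, hL⟩ := h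
      exact ⟨L, lamW_of_bas (fun Φ hb => (Z i).le hle hb) hL⟩)
    (fun i S₁ _ hn => by
      obtain ⟨S₃, L, hne, hsub, hL⟩ := lamw _ ((Z i).ne hn)
      exact ⟨(Z i).sl S₃, ⟨L, lamW_of_bas (fun Φ hb => (Z i).slbas hb) hL⟩,
        (Z i).slne hne hsub⟩)
  choose L hL using h3
  exact ⟨S', L, h1, h2, hL⟩

/-! ### Generic levels -/

/-- The zoom with the tube `p`. -/
def atp (v : Vz m) (p : ℝ) (h0 : 0 ≤ p) (h1 : p < 1) : Vz m := { v with p := p, p0 := h0, p1 := h1 }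

theorem recv_atp (S : PCl m) (v : Vz m) (ε : Fin n → Fin m) (p : ℝ) (h0 : 0 ≤ p) (h1 : p < 1)
    {τ : ℝ} {J : ℕ} {F : Fam n J} {A : F.Ω → Prop} (hA : (RecV S (atp v p h0 h1) ε).St τ J F A) :
    (TubC (WyV S v ε) p).St τ J F A := by
  have key : ∀ (J : ℕ) (F : Fam n J) (A : F.Ω → Prop) (hq : ⌊p * (J : ℝ)⌋₊ ≤ J),
      WyVSt S (atp v p h0 h1) ε τ J F A →
      (TubC (WyV S v ε) p).St τ (J - ⌊p * (J : ℝ)⌋₊) (F.tub _ hq) A := by
    rintro J F A hq ⟨J, F, A, hS⟩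
    exact TubSt.mk (J - v.B J) (v.winV ε F) A hq (WyVSt.mk J F A hS)
  obtain ⟨J, F, A, hq, hS⟩ := hA
  exact key J F A hq hS

/-- **The active coordinate of a tube.** -/
theorem tub_act {S : PCl n} {N : Finset (Fin n) → ℝ → ℝ → ℝ} (hN : ActN S N)
    (hpos : ∀ (τ : ℝ) (J : ℕ) (F : Fam n J) (A : F.Ω → Prop), S.St τ J F A → 0 < Pe F.p A)
    {p : ℝ} (hp0 : 0 ≤ p) (hp1 : p ≤ 1 / 2) (hG : GSc N p) :
    ∃ (κ : Fin n) (Na : ℚ → ℚ → ℝ) (al : ℝ) (g₀ : ℝ → ℝ), 0 < al ∧ (∀ e, 0 < e → 0 < g₀ e) ∧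
      ActM Na al g₀ ∧ ActB Na (TubC S p) κ := by
  obtain ⟨κ, al, hal, hact⟩ := hG
  have h1 := (tub_actR hp1 hact).rat
  have h2 := (tub_actB hN hpos κ hp0 hp1).rat
  obtain ⟨g₀, hg₀, hM⟩ := ActQ.mod h1
  exact ⟨κ, _, al, g₀, hal, hg₀, hM, h2⟩

theorem actB_of_bas {S S' : PCl m} {N : ℚ → ℚ → ℝ} {κ : Fin m}
    (hb : ∀ Φ : Stat m, Bas S Φ → Bas S' Φ) (h : ActB N S κ) : ActB N S' κ :=
  fun q q' h0 h1 h2 e he => hb _ (h q q' h0 h1 h2 e he)

end Pool.REX83
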