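import Pool.Agent.H60.ZCL.BTail

/-!
# Conditional entropies as numbers of a class

The largest number of values of `X`, given a value of `W`, on an event, is a hereditary quantity.
If it cannot be decreased by going to large subevents, its logarithm is the conditional entropy of
`X` given `W`. So conditional entropies are numbers of a subclass (`ext_cond`), if the number of
values of `X` is bounded. There is no condition on the number of values of `W`.
-/

set_option autoImplicit false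

namespace Pool.REX83

open Finset Real
open Pool.Agent.H49.Ent Pool.Agent.H32.Dense Pool.STK Pool.KA Pool.K2S Pool.PB Pool.S6C

section Fin

variable {Ω β γ : Type} [Fintype Ω]

open Classical in
theorem cnt_img (p : Ω → ℝ) (X : Ω → β) (W : Ω → γ) (A : Ω → Prop) (w : γ) :
    cnt p X (fun ω => A ω ∧ W ω = w) =
      ((univ.filter fun ω => 0 < p ω ∧ A ω ∧ W ω = w).image X).card := by
  unfold cnt
  refine congrArg Finset.card (Finset.ext fun x => ?_)
  simp only [mem_image, mem_filter, mem_univ, true_and]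

open Classical in
theorem law_img (p : Ω → ℝ) (X : Ω → β) (x : β) :
    law p X x = ∑ ω, if X ω = x then p ω else 0 := by
  unfold law
  refine sum_congr rfl fun ω _ => ?_
  by_cases h : X ω = x
  · simp only [if_pos h]
  · simp only [if_neg h]

theorem one_le_cnt' {p : Ω → ℝ} (X : Ω → β) (W : Ω → γ) {A : Ω → Prop} {ω₀ : Ω} (h0 : 0 < p ω₀)
    (hA : A ω₀) : 1 ≤ cnt p X (fun ω => A ω ∧ W ω = W ω₀) := by
  classical
  rw [cnt_img, Nat.one_le_iff_ne_zero, Finset.card_ne_zero]
  refine ⟨X ω₀, mem_image_of_mem _ ?_⟩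
  rw [mem_filter]
  exact ⟨mem_univ _, h0, hA, rfl⟩

theorem exists_pos {p : Ω → ℝ} (hp : IsLaw p) {A : Ω → Prop} (hA : 0 < Pe p A) :
    ∃ ω, 0 < p ω ∧ A ω := by
  classical
  by_contra hcon
  push Not at hcon
  have : Pe p A = 0 := by
    rw [Pe_eq]
    refine sum_eq_zero fun ω _ => ?_
    by_cases hAω : A ω
    · rw [if_pos hAω]
      by_contra h2
      exact hcon ω (lt_of_le_of_ne (hp.nonneg ω) (Ne.symm h2)) hAω
    · rw [if_neg hAω]
  linarith

/-- Few values, given `W`. -/
theorem CH_le_cnt {p : Ω → ℝ} (hp : IsLaw p) (X : Ω → β) (W : Ω → γ) {A : Ω → Prop}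
    (hA : 0 < Pe p A) {M : ℝ} (hM : 1 ≤ M)
    (h : ∀ w, (cnt p X (fun ω => A ω ∧ W ω = w) : ℝ) ≤ M) :
    CH (Pool.Agent.H49.Ent.cond p A True) X W ≤ Real.log M := by
  classical
  have hc := isLaw_cond hp hA
  have h1 := CH_le_card hc.nonneg hc.sum_one X W
    (fun w => (univ.filter fun ω => 0 < p ω ∧ A ω ∧ W ω = w).image X) (by
      intro ω hω
      have h1 := (cond_pos_iff hp.nonneg A True ω).1 hω
      refine mem_image_of_mem X ?_
      rw [mem_filter]
      exact ⟨mem_univ ω, h1.1, by simpa using h1.2, rfl⟩)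
  refine h1.trans ?_
  have h2 : ∀ w, Real.log (((univ.filter fun ω => 0 < p ω ∧ A ω ∧ W ω = w).image X).card : ℝ) ≤
      Real.log M := by
    intro w
    have h3 : (((univ.filter fun ω => 0 < p ω ∧ A ω ∧ W ω = w).image X).card : ℝ) ≤ M := by
      have h4 := h w
      rw [cnt_img] at h4
      exact h4
    rcases Nat.eq_zero_or_pos ((univ.filter fun ω => 0 < p ω ∧ A ω ∧ W ω = w).image X).card
      with h5 | h5
    · rw [h5, Nat.cast_zero, Real.log_zero]
      exact Real.log_nonneg hM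
    · exact Real.log_le_log (by exact_mod_cast h5) h3
  calc Ex (Pool.Agent.H49.Ent.cond p A True) (fun ω => Real.log
        (((univ.filter fun ω' => 0 < p ω' ∧ A ω' ∧ W ω' = W ω).image X).card : ℝ)) ≤
      Ex (Pool.Agent.H49.Ent.cond p A True) (fun _ => Real.log M) :=
        Ex_mono hc.nonneg fun ω _ => h2 _
    _ = Real.log M := by
        unfold Ex
        rw [← Finset.sum_mul, hc.sum_one, one_mul]

/-- If all large subevents have many values given some value of `W`, the conditional entropy is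
large. -/
theorem CH_ge_cnt {p : Ω → ℝ} (hp : IsLaw p) (X : Ω → β) (W : Ω → γ) {A : Ω → Prop}
    (hA : 0 < Pe p A) {κ M : ℝ} (hM : 1 ≤ M) (h : ∀ B : Ω → Prop, Sub B A →
      Real.exp (-κ) * Pe p A ≤ Pe p B → ∃ w, M < cnt p X (fun ω => B ω ∧ W ω = w)) :
    (1 - Real.exp (-κ)) * Real.log M ≤ CH (Pool.Agent.H49.Ent.cond p A True) X W := by
  classical
  obtain ⟨q, hq⟩ : ∃ q, q = Pool.Agent.H49.Ent.cond p A True := ⟨_, rfl⟩
  have hql : IsLaw q := by rw [hq]; exact isLaw_cond hp hA
  obtain ⟨r, hr⟩ : ∃ r : Ω → ℝ, r = fun ω => law q (fun ω => (X ω, W ω)) (X ω, W ω) /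
    law q W (W ω) := ⟨_, rfl⟩
  obtain ⟨B, hB⟩ : ∃ B : Ω → Prop, B = fun ω => A ω ∧ 1 / M ≤ r ω := ⟨_, rfl⟩
  have hM0 : 0 < M := by linarith
  have hBA : Sub B A := fun ω hω => by
    rw [hB] at hω
    exact hω.1
  have hcard : ∀ w, (cnt p X (fun ω => B ω ∧ W ω = w) : ℝ) ≤ M := by
    intro w
    obtain ⟨I, hI⟩ : ∃ I, I = (univ.filter fun ω => 0 < p ω ∧ B ω ∧ W ω = w).image X := ⟨_, rfl⟩
    have e1 : (cnt p X (fun ω => B ω ∧ W ω = w) : ℝ) = I.card := by
      rw [cnt_img, hI]
    have hw0 := law_nonneg hql.nonneg W w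
    have e2 : (I.card : ℝ) * (1 / M * law q W w) ≤
        ∑ y ∈ I, law q (fun ω => (X ω, W ω)) (y, w) := by
      rw [← nsmul_eq_mul]
      refine card_nsmul_le_sum I _ _ fun y hy => ?_
      rw [hI, mem_image] at hy
      obtain ⟨ω, hω, rfl⟩ := hy
      rw [mem_filter] at hω
      obtain ⟨-, hω1, hω2, rfl⟩ := hω
      rw [hB] at hω2
      have hqω : 0 < q ω := by
        rw [hq]
        exact (cond_pos_iff hp.nonneg A True ω).2 ⟨hω1, by simpa using hω2.1⟩
      have h3 := hω2.2
      rw [hr] at h3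
      have h4 := law_pos hql.nonneg W hqω
      rwa [le_div_iff₀ h4] at h3
    have e3 : ∑ y ∈ I, law q (fun ω => (X ω, W ω)) (y, w) ≤ law q W w := by
      have a1 : ∀ y, law q (fun ω => (X ω, W ω)) (y, w) =
          ∑ ω, if (X ω, W ω) = (y, w) then q ω else 0 := fun y => by
        rw [law_img]
        refine sum_congr rfl fun ω _ => ?_
        by_cases h : (X ω, W ω) = (y, w)
        · simp only [if_pos h]
        · simp only [if_neg h]
      have a2 : law q W w = ∑ ω, if W ω = w then q ω else 0 := by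
        rw [law_img]
      rw [a2]
      simp only [a1]
      rw [Finset.sum_comm]
      refine sum_le_sum fun ω _ => ?_
      by_cases hw : W ω = w
      · rw [if_pos hw]
        have a3 : ∀ y ∈ I, (if (X ω, W ω) = (y, w) then q ω else 0) =
            if X ω = y then q ω else 0 := by
          intro y _
          refine if_congr ?_ rfl rfl
          rw [Prod.mk.injEq]
          exact ⟨fun h => h.1, fun h => ⟨h, hw⟩⟩
        rw [sum_congr rfl a3, sum_ite_eq]
        split_ifs
        · exact le_rfl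
        · exact hql.nonneg ω
      · rw [if_neg hw]
        refine (sum_eq_zero fun y _ => if_neg ?_).le
        rw [Prod.mk.injEq]
        exact fun h => hw h.2
    rw [e1]
    rcases hw0.lt_or_eq with h5 | h5
    · have h6 := e2.trans e3
      rw [one_div] at h6
      have h7 : (I.card : ℝ) * (M⁻¹ * law q W w) = (I.card * M⁻¹) * law q W w := by ring
      rw [h7] at h6
      have h8 : (I.card : ℝ) * M⁻¹ ≤ 1 := by
        by_contra hcon
        push Not at hcon
        nlinarith
      rwa [← div_eq_mul_inv, div_le_one hM0] at h8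
    · have h6 : I = ∅ := by
        rw [hI, image_eq_empty, filter_eq_empty_iff]
        rintro ω - ⟨hω1, hω2, hω3⟩
        rw [hB] at hω2
        have hqω : 0 < q ω := by
          rw [hq]
          exact (cond_pos_iff hp.nonneg A True ω).2 ⟨hω1, by simpa using hω2.1⟩
        have h4 := law_pos hql.nonneg W hqω
        rw [hω3, ← h5] at h4
        exact lt_irrefl _ h4
      rw [h6, card_empty, Nat.cast_zero]
      exact hM0.le
  have hPB : Pe p B < Real.exp (-κ) * Pe p A := by
    by_contra hcon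
    push Not at hcon
    obtain ⟨w, hw⟩ := h B hBA hcon
    linarith [hcard w]
  have hqB : Pe q B ≤ Real.exp (-κ) := by
    rw [hq, Pe_cond, div_le_iff₀ hA]
    refine le_trans (Pe_mono hp ?_) hPB.le
    intro ω hω
    exact hω.2
  have hlM : 0 ≤ Real.log M := Real.log_nonneg hM
  have hH : CH q X W = ∑ ω, q ω * (-Real.log (r ω)) := by
    rw [CH_eq_neg_sum hql.nonneg, hr]
    rfl
  have hpt : ∀ ω, q ω * (if B ω then 0 else Real.log M) ≤ q ω * (-Real.log (r ω)) := by
    intro ω
    by_cases h0 : q ω = 0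
    · rw [h0, zero_mul, zero_mul]
    have hqω : 0 < q ω := lt_of_le_of_ne (hql.nonneg ω) (Ne.symm h0)
    have hlp := law_pos hql.nonneg (fun ω => (X ω, W ω)) hqω
    have hlw := law_pos hql.nonneg W hqω
    have hr0 : 0 < r ω := by
      rw [hr]
      exact div_pos hlp hlw
    have hr1 : r ω ≤ 1 := by
      rw [hr]
      simp only
      rw [div_le_one hlw]
      have a1 : law q (fun ω => (X ω, W ω)) (X ω, W ω) =
          ∑ ω', if (X ω', W ω') = (X ω, W ω) then q ω' else 0 := by
        rw [law_img]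
        refine sum_congr rfl fun ω' _ => ?_
        by_cases h : (X ω', W ω') = (X ω, W ω)
        · simp only [if_pos h]
        · simp only [if_neg h]
      have a2 : law q W (W ω) = ∑ ω', if W ω' = W ω then q ω' else 0 := by
        rw [law_img]
      rw [a1, a2]
      refine sum_le_sum fun ω' _ => ?_
      by_cases h1 : (X ω', W ω') = (X ω, W ω)
      · rw [if_pos h1, if_pos (Prod.ext_iff.1 h1).2]
      · rw [if_neg h1]
        split_ifs
        · exact hql.nonneg ω'
        · exact le_rfl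
    refine mul_le_mul_of_nonneg_left ?_ hqω.le
    by_cases hBω : B ω
    · rw [if_pos hBω]
      have := Real.log_nonpos hr0.le hr1
      linarith
    · rw [if_neg hBω]
      have hAω : A ω := by
        rw [hq] at hqω
        have := ((cond_pos_iff hp.nonneg A True ω).1 hqω).2
        simpa using this
      have hlt : r ω < 1 / M := by
        by_contra hcon
        push Not at hcon
        refine hBω ?_
        rw [hB]
        exact ⟨hAω, hcon⟩
      have := Real.log_le_log hr0 hlt.le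
      rw [one_div, Real.log_inv] at this
      linarith
  have hsum : ∑ ω, q ω * (if B ω then 0 else Real.log M) = (1 - Pe q B) * Real.log M := by
    have e1 : ∀ ω, q ω * (if B ω then 0 else Real.log M) =
        q ω * Real.log M - (if B ω then q ω else 0) * Real.log M := by
      intro ω
      by_cases hBω : B ω
      · simp [hBω]
      · simp [hBω]
    rw [sum_congr rfl fun ω _ => e1 ω, sum_sub_distrib, ← sum_mul, ← sum_mul, hql.sum_one,
      ← Pe_eq]
    ring
  rw [← hq, hH]
  refine le_trans ?_ (sum_le_sum fun ω _ => hpt ω)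
  rw [hsum]
  exact mul_le_mul_of_nonneg_right (by linarith) hlM

end Fin

variable {m : ℕ}

/-- The property: at most `exp (-(s J))` values of `X`, given any value of `W`. -/
def qC {α β : ∀ J : ℕ, Fam m J → Type} (X : ∀ (J : ℕ) (F : Fam m J), F.Ω → α J F)
    (W : ∀ (J : ℕ) (F : Fam m J), F.Ω → β J F) (s : ℝ) : Stat m := fun J F A =>
  ∀ w, (cnt F.p (X J F) (fun ω => A ω ∧ W J F ω = w) : ℝ) ≤ Real.exp (-(s * J))

section

variable {α β : ∀ J : ℕ, Fam m J → Type} (X : ∀ (J : ℕ) (F : Fam m J), F.Ω → α J F)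
  (W : ∀ (J : ℕ) (F : Fam m J), F.Ω → β J F)

theorem qC.hered (s : ℝ) (J : ℕ) (F : Fam m J) : Hered (qC X W s J F) := by
  intro A B hB hA w
  refine le_trans ?_ (hA w)
  exact_mod_cast cnt_mono F.p (X J F) (show Sub (fun ω => B ω ∧ W J F ω = w)
    (fun ω => A ω ∧ W J F ω = w) from fun ω hω => ⟨hB ω hω.1, hω.2⟩)

theorem qC.anti (s s' : ℝ) (J : ℕ) (F : Fam m J) (A : F.Ω → Prop) (h : s' ≤ s)
    (hA : qC X W s J F A) : qC X W s' J F A := by
  intro w
  refine le_trans (hA w) (Real.exp_le_exp.2 ?_)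
  have := mul_le_mul_of_nonneg_right h (Nat.cast_nonneg (α := ℝ) J)
  linarith

end

/-- The threshold of the number of values is the conditional entropy, base form. -/
theorem cond_base {α β : ∀ J : ℕ, Fam m J → Type} {X : ∀ (J : ℕ) (F : Fam m J), F.Ω → α J F}
    {W : ∀ (J : ℕ) (F : Fam m J), F.Ω → β J F}
    {S : PCl m} (hpos : ∀ (τ : ℝ) (J : ℕ) (F : Fam m J) (A : F.Ω → Prop), S.St τ J F A →
      0 < Pe F.p A) {s : ℝ} (h1 : ∀ h : ℝ, 0 < h → Bas S (qC X W (s - h)))
    (h2 : ∀ h : ℝ, 0 < h → Bas S (fun J F A => ¬ qC X W (s + h) J F A)) (h : ℝ) (hh : 0 < h) :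
    Bas S (fun J F A =>
      |CH (Pool.Agent.H49.Ent.cond F.p A True) (X J F) (W J F) - (-s) * J| ≤ h * J) := by
  have hpc : Bas S (fun _ F A => 0 < Pe F.p A) := ⟨1, one_pos, 0, fun J _ F A hA =>
    hpos 1 J F A hA⟩
  have up : Bas S (fun J F A => CH (Pool.Agent.H49.Ent.cond F.p A True) (X J F) (W J F) ≤
      (-s + h) * J) := by
    refine Bas.mono 0 (hpc.and (h1 h hh)) ?_
    rintro J - F A ⟨hA, hq⟩
    -- there is a value
    obtain ⟨ω₀, hω₀, hAω₀⟩ := exists_pos F.isLaw hA
    have h3 : (1 : ℝ) ≤ Real.exp (-((s - h) * J)) := by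
      refine le_trans ?_ (hq (W J F ω₀))
      exact_mod_cast one_le_cnt' (X J F) (W J F) hω₀ hAω₀
    have h4 := CH_le_cnt F.isLaw (X J F) (W J F) hA h3 hq
    rw [Real.log_exp] at h4
    linarith
  have lo : Bas S (fun J F A => (-s - h) * J ≤
      CH (Pool.Agent.H49.Ent.cond F.p A True) (X J F) (W J F)) := by
    obtain ⟨c, hc, J₂, hn⟩ := h2 (h / 2) (half_pos hh)
    obtain ⟨κ, hκe⟩ : ∃ κ, κ = c / 2 := ⟨_, rfl⟩
    have hκ : 0 < κ := by rw [hκe]; linarith only [hc]
    obtain ⟨C, hC⟩ : ∃ C, C = max 1 (2 * |s| / h) := ⟨_, rfl⟩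
    have hC1 : 1 ≤ C := by rw [hC]; exact le_max_left _ _
    have hC2 : 2 * |s| / h ≤ C := by rw [hC]; exact le_max_right _ _
    obtain ⟨J₁, hJ₁⟩ := exp_small' hκ hC1
    refine ⟨κ, hκ, max J₁ J₂, fun J hJ F A hSt => ?_⟩
    have hA := hpos κ J F A hSt
    have hJ0 : (0 : ℝ) ≤ J := Nat.cast_nonneg J
    have hcl := isLaw_cond F.isLaw hA
    by_cases hneg : -s - h / 2 ≤ 0
    · refine le_trans ?_ (CH_nonneg hcl.nonneg _ _)
      exact mul_nonpos_of_nonpos_of_nonneg (by linarith only [hh, hneg]) hJ0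
    push Not at hneg
    obtain ⟨M, hM⟩ : ∃ M, M = Real.exp (-((s + h / 2) * J)) := ⟨_, rfl⟩
    have hM1 : 1 ≤ M := by
      rw [hM, Real.one_le_exp_iff]
      have : 0 ≤ (-s - h / 2) * J := mul_nonneg hneg.le hJ0
      linarith only [this]
    have key := CH_ge_cnt F.isLaw (X J F) (W J F) hA (κ := κ * J) hM1 (by
      intro B hB hP
      have hSB : S.St c J F B := S.mono (by linarith only [hκe]) (S.res hκ.le hSt hB hP)
      have := hn J ((le_max_right _ _).trans hJ) F B hSB
      unfold qC at this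
      push Not at this
      obtain ⟨w, hw⟩ := this
      refine ⟨w, ?_⟩
      rw [hM]
      exact hw)
    refine le_trans ?_ key
    have hlM : Real.log M = (-s - h / 2) * J := by
      rw [hM, Real.log_exp]
      ring
    rw [hlM]
    have e1 := hJ₁ J ((le_max_left _ _).trans hJ)
    have hC0 : 0 < C := by linarith only [hC1]
    have e2 : Real.exp (-(κ * J)) * ((-s - h / 2) * J) ≤ 1 / C * ((-s - h / 2) * J) :=
      mul_le_mul_of_nonneg_right e1 (mul_nonneg hneg.le hJ0)
    have e3 : 1 / C * ((-s - h / 2) * J) ≤ h / 2 * J := by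
      have a1 : -s - h / 2 ≤ |s| := by
        have := neg_abs_le s
        linarith only [hh, this]
      have a2 : |s| ≤ h / 2 * C := by
        rw [div_le_iff₀ hh] at hC2
        linarith only [hC2]
      have a3 : 1 / C * (-s - h / 2) ≤ h / 2 := by
        rw [one_div, inv_mul_le_iff₀ hC0]
        linarith only [a1, a2]
      calc 1 / C * ((-s - h / 2) * J) = 1 / C * (-s - h / 2) * J := by ring
        _ ≤ h / 2 * J := mul_le_mul_of_nonneg_right a3 hJ0
    nlinarith only [e2, e3]
  refine Bas.mono 0 (up.and lo) ?_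
  rintro J - F A ⟨h1, h2⟩
  rw [abs_le]
  constructor <;> nlinarith

/-- **Conditional entropies as numbers.** The number of values of `X i` is bounded, there is no
condition on `W i`. -/
theorem ext_cond {S : PCl m} (hS : S.Ne)
    (hpos : ∀ (τ : ℝ) (J : ℕ) (F : Fam m J) (A : F.Ω → Prop), S.St τ J F A → 0 < Pe F.p A)
    (α β : ℕ → ∀ J : ℕ, Fam m J → Type) (X : ∀ (i J : ℕ) (F : Fam m J), F.Ω → α i J F)
    (W : ∀ (i J : ℕ) (F : Fam m J), F.Ω → β i J F)
    (M : ℕ → ℝ) (hM : ∀ i, Bas S (fun J F A => (cnt F.p (X i J F) A : ℝ) ≤ Real.exp (M i * J))) :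
    ∃ S' : PCl m, S'.Ne ∧
      (∀ (τ : ℝ) (J : ℕ) (F : Fam m J) (A : F.Ω → Prop), S'.St τ J F A → S.St τ J F A) ∧
      ∀ i, ∃ η : ℝ, ∀ h : ℝ, 0 < h → Bas S' (fun J F A =>
        |CH (Pool.Agent.H49.Ent.cond F.p A True) (X i J F) (W i J F) - η * J| ≤ h * J) := by
  have hlo : ∀ i, Bas S (qC (X i) (W i) (-M i)) := fun i => Bas.mono 0 (hM i) fun J _ F A hA w => by
    refine le_trans ?_ (hA.trans (Real.exp_le_exp.2 (le_of_eq (by ring))))
    exact_mod_cast cnt_mono F.p (X i J F) (show Sub (fun ω => A ω ∧ W i J F ω = w) A from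
      fun ω hω => hω.1)
  obtain ⟨S', h1, h2, -, h4⟩ := hS.diag
    (fun n S₁ P => ∃ s : ℝ, PNum (S₁.sl P) (qC (X n) (W n)) s ∧
      P.P = (fun τ J F A => qC (X n) (W n) (s - τ) J F A ∨ s - τ ≤ -M n)) (by
    intro n S₁ hle hn
    obtain ⟨s, -, -, P, hP, hs, hPe⟩ := hn.num (qC (X n) (W n))
      (fun s J F => qC.hered _ _ s J F) (fun s s' J F A h hA => qC.anti _ _ s s' J F A h hA)
      (a := -M n) (b := 1) ((hlo n).clp.le hle)
      ((Clp.of one_pos 1 fun J hJ F A hA hq => by
        have hA0 := hpos 1 J F A hA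
        obtain ⟨ω₀, hω₀, hAω₀⟩ := exists_pos F.isLaw hA0
        have a1 : (1 : ℝ) ≤ cnt F.p (X n J F) (fun ω => A ω ∧ W n J F ω = W n J F ω₀) := by
          exact_mod_cast one_le_cnt' (X n J F) (W n J F) hω₀ hAω₀
        have hq' := hq (W n J F ω₀)
        have a2 : Real.exp (-(1 * (J : ℝ))) < 1 := by
          rw [Real.exp_lt_one_iff]
          have : (1 : ℝ) ≤ J := by exact_mod_cast hJ
          linarith only [this]
        linarith only [hq', a1, a2] : Clp S (fun J F A => ¬ qC (X n) (W n) 1 J F A)).le hle)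
    exact ⟨P, ⟨s, hs, hPe⟩, hP⟩)
  refine ⟨S', h1, h2, fun i => ?_⟩
  obtain ⟨S₁, P, ⟨s, hs, hPe⟩, -, -, hle, hall⟩ := h4 i
  refine ⟨-s, fun h hh => cond_base (fun τ J F A hA => hpos τ J F A (h2 τ J F A hA))
    (fun h hh => ?_) (fun h hh => ?_) h hh⟩
  · obtain ⟨τ₀, hτ₀, J₀, hb⟩ := (hlo i).sub h2
    have hi : (0 : ℝ) < (i : ℝ) + 1 := by positivity
    refine ⟨min τ₀ (min h (1 / ((i : ℝ) + 1))), lt_min hτ₀ (lt_min hh (by positivity)), J₀,
      fun J hJ F A hA => ?_⟩
    have k1 : min τ₀ (min h (1 / ((i : ℝ) + 1))) ≤ h := (min_le_right _ _).trans (min_le_left _ _)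
    have k2 : min τ₀ (min h (1 / ((i : ℝ) + 1))) ≤ 1 / ((i : ℝ) + 1) :=
      (min_le_right _ _).trans (min_le_right _ _)
    have k3 : ((i : ℝ) + 1) * min τ₀ (min h (1 / ((i : ℝ) + 1))) ≤ 1 := by
      rw [le_div_iff₀ hi] at k2
      linarith only [k2]
    have k4 := (hall _ J F A k3 hA).2
    rw [hPe] at k4
    rcases k4 with k4 | k4
    · exact qC.anti _ _ _ _ J F A (by linarith only [k1]) k4
    · exact qC.anti _ _ _ _ J F A (by linarith only [k1, k4])
        (hb J hJ F A (S'.mono (min_le_left _ _) hA))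
  · exact Bas.neg (fun J F => qC.hered _ _ _ J F) ((hs.le hle).2 h hh)

end Pool.REX83
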