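import Pool.Agent.H83.REC.Exi
import Pool.Agent.H45.EXA.Vgr

/-!
# Exactness behind records for countably many zooms

`rexv_all`: countably many zooms `v i` of coordinates `ε i`. In a subclass, for a generic small
level `e`: the tube `p` of the zoom `i` is the first one at which the activity of the direction is
`e / (1 - b)`; if this number is attained before `1 / 2`, then at all windows of the zoom outside a
countable set the coordinates are exact behind the numbers of the closed labels of the zoom.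
-/

set_option autoImplicit false

namespace Pool.REX83

open Finset Real MeasureTheory
open Pool.Agent.H49.Ent Pool.Agent.H32.Dense Pool.STK Pool.KA Pool.KSAT Pool.K2S Pool.PB Pool.S6C
open Pool.GEN Pool.REX

variable {m n J : ℕ}

/-- **Generic levels with scales**, for countably many classes. -/
theorem lev_gen' {ι : Type} [Countable ι] {k : ι → ℕ} {S : ∀ i, PCl (k i)}
    {N : ∀ i, Finset (Fin (k i)) → ℝ → ℝ → ℝ} (hN : ∀ i, ActN (S i) (N i)) {c : ι → ℝ}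
    (hc : ∀ i, 0 < c i) {e₀ : ℝ} (he₀ : 0 < e₀) :
    ∃ e : ℝ, 0 < e ∧ e < e₀ ∧ ∀ i, ∀ q₁ : ℝ, 0 ≤ q₁ → q₁ ≤ 1 → c i * e < ttl (N i) q₁ →
      0 < fp (ttl (N i)) (c i * e) ∧ fp (ttl (N i)) (c i * e) < q₁ ∧
        ttl (N i) (fp (ttl (N i)) (c i * e)) = c i * e ∧ GSc (N i) (fp (ttl (N i)) (c i * e)) := by
  have h1 : ∀ᵐ e : ℝ, ∀ i, ∀ p : ℝ, 0 < p → p < 1 → ttl (N i) p = c i * e →
      p ∈ {p | GSc (N i) p} := by
    refine ae_all_iff.2 fun i => ?_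
    have h2 := lev_ae (ttl_lip (hN i)) (fun x y a1 a2 a3 => ttl_mono (hN i) a1 a2 a3)
      (gsc_ae (hN i))
    have h3 : volume {e : ℝ | ¬ ∀ p : ℝ, 0 < p → p < 1 → ttl (N i) p = e →
      p ∈ {p | GSc (N i) p}} = 0 := h2
    have h4 := Real.volume_preimage_mul_left (hc i).ne' {e : ℝ | ¬ ∀ p : ℝ, 0 < p → p < 1 →
      ttl (N i) p = e → p ∈ {p | GSc (N i) p}}
    rw [h3, mul_zero] at h4
    exact h4
  obtain ⟨e, he, he'⟩ : ∃ e ∈ Set.Ioo 0 e₀, ∀ i, ∀ p : ℝ, 0 < p → p < 1 → ttl (N i) p = c i * e →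
      p ∈ {p | GSc (N i) p} := by
    by_contra hcon
    push Not at hcon
    have h2 : volume (Set.Ioo 0 e₀) = 0 := by
      refine measure_mono_null (fun e he => ?_) h1
      obtain ⟨i, p, a1, a2, a3, a4⟩ := hcon e he
      simp only [Set.mem_compl_iff, Set.mem_ofPred_eq]
      intro h
      exact a4 (h i p a1 a2 a3)
    rw [Real.volume_Ioo, ENNReal.ofReal_eq_zero] at h2
    linarith
  refine ⟨e, he.1, he.2, fun i q₁ hq0 hq1 hlt => ?_⟩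
  have hce : 0 < c i * e := mul_pos (hc i) he.1
  have hct := (ttl_lip (hN i)).continuous
  have h3 := fp_pos hct (ttl_zero (hN i)).le hce hq0 hlt.le
  have h4 := fp_eq hct (ttl_zero (hN i)).le hce hq0 hlt.le
  have h5 : fp (ttl (N i)) (c i * e) < q₁ := by
    refine lt_of_le_of_ne (fp_le hq0 hlt.le) fun h => ?_
    rw [h] at h4
    linarith
  exact ⟨h3, h5, h4, he' i _ h3 (h5.trans_le hq1) h4⟩

/-- The data of one zoom: the tube `p`, an active coordinate `κ`, the numbers `L` of the closed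
labels, and exactness at all windows outside a countable set. -/
structure RDt (S : PCl m) (v : Vz m) (ε : Fin n → Fin m) (p : ℝ) (κ : Fin n)
    (L : Finset (Fin n) → Fin n → ℝ → ℝ → ℝ) : Prop where
  p0 : 0 < p
  p1 : p < 1 / 2
  lam : LamW (RecV S (atp v p p0.le (p1.trans (by norm_num))) ε) L
  act : ∃ (Na : ℚ → ℚ → ℝ) (al : ℝ) (g₀ : ℝ → ℝ), 0 < al ∧ (∀ e, 0 < e → 0 < g₀ e) ∧
    ActM Na al g₀ ∧ ActB Na (RecV S (atp v p p0.le (p1.trans (by norm_num))) ε) κ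
  exa : ∃ D : Set ℝ, D.Countable ∧ ∀ w : ℝ, 0 < w → w < 1 → w ∉ D →
    ∃ σ : Equiv.Perm (Fin n), w ∈ Wv L (fun j => σ j) ∧ (∀ j : Fin n, (j : ℕ) = 0 → σ j = κ) ∧
      ∀ ρ : ℝ, 0 < ρ → Bas S (fun J F A =>
        ((∑ j : Fin n, (1 - (v.b + (1 - v.b) * (p + (1 - p) *
            vs L (fun j => σ j) w (j + 1))))) - ρ) * Real.log 2 * J ≤
          CH (Pool.Agent.H49.Ent.cond F.p A True) (fun ω j => F.X J ω (ε j))
            (fun ω => (v.y J F ω, F.W ω)))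

/-- **Exactness behind records, for countably many zooms.** -/
theorem rexv_all {S : PCl m} (hS : S.Ne) {C₀ : ℝ} (hC₀ : 0 ≤ C₀) (htm : TmC S C₀)
    (hpos : ∀ (τ : ℝ) (J : ℕ) (F : Fam m J) (A : F.Ω → Prop), S.St τ J F A → 0 < Pe F.p A)
    {ι : Type} [Countable ι] (k : ι → ℕ) (hF : ∀ i, FZX (k i)) (v : ι → Vz m)
    (ε : ∀ i, Fin (k i) → Fin m) :
    ∃ (S₁ : PCl m) (N : ∀ i, Finset (Fin (k i)) → ℝ → ℝ → ℝ), S₁.Ne ∧
      (∀ (τ : ℝ) (J : ℕ) (F : Fam m J) (A : F.Ω → Prop), S₁.St τ J F A → S.St τ J F A) ∧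
      (∀ i, ActN (WyV S₁ (v i) (ε i)) (N i)) ∧
      ∀ (S₂ : PCl m), S₂.Ne →
        (∀ (τ : ℝ) (J : ℕ) (F : Fam m J) (A : F.Ω → Prop), S₂.St τ J F A → S₁.St τ J F A) →
      ∀ e₀ : ℝ, 0 < e₀ → ∃ e : ℝ, 0 < e ∧ e < e₀ ∧
      ∃ (S₃ : PCl m) (L : ∀ i, Finset (Fin (k i)) → Fin (k i) → ℝ → ℝ → ℝ), S₃.Ne ∧
        (∀ (τ : ℝ) (J : ℕ) (F : Fam m J) (A : F.Ω → Prop), S₃.St τ J F A → S₂.St τ J F A) ∧
        ∀ i, 1 / (1 - (v i).b) * e < ttl (N i) (1 / 2) →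
          ttl (N i) (fp (ttl (N i)) (1 / (1 - (v i).b) * e)) = 1 / (1 - (v i).b) * e ∧
          ∃ κ : Fin (k i), RDt S₃ (v i) (ε i) (fp (ttl (N i)) (1 / (1 - (v i).b) * e)) κ (L i) := by
  obtain ⟨S₁, N, hne, hsub, hN⟩ := act_all hS hpos k (fun i => wyZ (v i) (ε i))
  refine ⟨S₁, N, hne, hsub, hN, fun S₂ hne₂ hsub₂ e₀ he₀ => ?_⟩
  have hc : ∀ i, 0 < 1 / (1 - (v i).b) := fun i => by
    have := (v i).b1
    have h1 : 0 < 1 - (v i).b := by linarith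
    positivity
  obtain ⟨e, he, hee, hlev⟩ := lev_gen' (S := fun i => WyV S₁ (v i) (ε i)) hN hc he₀
  -- the tubes
  obtain ⟨p, hp⟩ : ∃ p : ι → ℝ, p = fun i =>
    min (fp (ttl (N i)) (1 / (1 - (v i).b) * e)) (1 / 2) := ⟨_, rfl⟩
  have hp0 : ∀ i, 0 ≤ p i := fun i => by
    rw [hp]
    exact le_min (fp_nonneg _ _) (by norm_num)
  have hp1 : ∀ i, p i < 1 := fun i => by
    rw [hp]
    exact (min_le_right _ _).trans_lt (by norm_num)
  obtain ⟨S₃, L, hne₃, hsub₃, hL⟩ := lam_all hne₂ k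
    (fun i => reZ (atp (v i) (p i) (hp0 i) (hp1 i)) (ε i))
  refine ⟨e, he, hee, S₃, L, hne₃, hsub₃, fun i hi => ?_⟩
  obtain ⟨q0, q1, q2, q3⟩ := hlev i (1 / 2) (by norm_num) (by norm_num) hi
  refine ⟨q2, ?_⟩
  have hpi : p i = fp (ttl (N i)) (1 / (1 - (v i).b) * e) := by
    rw [hp]
    exact min_eq_left q1.le
  rw [← hpi] at q0 q1 q3 ⊢
  have hsub₃' : ∀ (τ : ℝ) (J : ℕ) (F : Fam m J) (A : F.Ω → Prop), S₃.St τ J F A →
      S₁.St τ J F A := fun τ J F A h => hsub₂ τ J F A (hsub₃ τ J F A h)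
  have hpos₃ : ∀ (τ : ℝ) (J : ℕ) (F : Fam m J) (A : F.Ω → Prop), S₃.St τ J F A →
      0 < Pe F.p A := fun τ J F A h => hpos τ J F A (hsub τ J F A (hsub₃' τ J F A h))
  have htm₃ : TmC S₃ C₀ := fun τ J F A hτ h => htm τ J F A hτ (hsub τ J F A (hsub₃' τ J F A h))
  -- the active coordinate
  have hN₃ : ActN (WyV S₃ (v i) (ε i)) (N i) :=
    actN_of_bas (fun Φ hb => wyv_le (v i) (ε i) (sub_le hsub₃') hb) (hN i)
  obtain ⟨κ, Na, al, g₀, hal, hg₀, hM, hB⟩ := tub_act hN₃ (wyv_pos (v i) (ε i) hpos₃) q0.le q1.le q3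
  have hLi : LamW (RecV S₃ (atp (v i) (p i) (hp0 i) (hp1 i)) (ε i)) (L i) := hL i
  have hBi : ActB Na (RecV S₃ (atp (v i) (p i) (hp0 i) (hp1 i)) (ε i)) κ :=
    actB_of_bas (fun Φ hb => Bas.sub (fun τ J F A hA =>
      recv_atp S₃ (v i) (ε i) (p i) (hp0 i) (hp1 i) hA) hb) hB
  have hneR : (RecV S₃ (atp (v i) (p i) (hp0 i) (hp1 i)) (ε i)).Ne := recV_ne hne₃ _ _
  have hposR : Bas (RecV S₃ (atp (v i) (p i) (hp0 i) (hp1 i)) (ε i)) (fun _ F A => 0 < Pe F.p A) :=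
    ⟨1, one_pos, 0, fun J _ F A hA => recv_pos _ _ hpos₃ 1 J F A hA⟩
  refine ⟨κ, q0, q1, hLi, ⟨Na, al, g₀, hal, hg₀, hM, hBi⟩, ?_⟩
  -- the greedy order
  have hκ : ∀ w : ℝ, 0 ≤ w → w < 1 → L i ∅ κ w w = w := fun w hw0 hw1 =>
    hLi.act hneR hal (hM.q hg₀) hBi hposR hw0 hw1
  obtain ⟨D, hD, hcov⟩ := wv_cover (φ := fun j => j) (κ := κ) hLi hκ
  refine ⟨D, hD, fun w hw0 hw1 hwD => ?_⟩
  obtain ⟨σ, hσ, hσ0⟩ := hcov w hw0 hw1 hwD
  refine ⟨σ, hσ, hσ0, fun ρ hρ => ?_⟩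
  have h1 := rexv (k i) (hF i) hC₀ htm₃ (atp (v i) (p i) (hp0 i) (hp1 i)) (ε i) hneR
    (fun _ _ _ _ h => h) hLi hal hg₀ hM (σ := fun j => σ j) σ.injective
    (fun j hj => by rw [hσ0 j hj]; exact hBi) hσ ρ hρ
  -- all families are in the pull-back
  obtain ⟨τ, hτ, J₁, hb⟩ := h1
  refine ⟨τ, hτ, J₁, fun J hJ F A hA => hb J hJ F A ⟨hA, fun h => ?_⟩⟩
  have hb0 := (v i).b0
  have hb1 := (v i).b1
  refine (RecV S₃ (atp (v i) (p i) (hp0 i) (hp1 i)) (ε i)).mono ?_ (recV_mk hA h)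
  have hc : 0 < (1 - (v i).b) * (1 - p i) := mul_pos (by linarith) (by linarith [hp1 i])
  have h1c : 1 ≤ 1 / ((1 - (v i).b) * (1 - p i)) := by
    rw [le_div_iff₀ hc, one_mul]
    exact mul_le_one₀ (by linarith) (by linarith [hp1 i]) (by linarith [hp0 i])
  calc τ = 1 * τ := (one_mul τ).symm
    _ ≤ 1 / ((1 - (v i).b) * (1 - p i)) * τ := mul_le_mul_of_nonneg_right h1c hτ.le

end Pool.REX83
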