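import Pool.Agent.H2.GEN.Act4

/-!
# Generic levels

`fp F e`: the first scale where the function `F` is at least `e`. For almost every level `e` the
scale `fp F e` avoids a given null set and the set where the derivative is zero (`lev_ae`), for
countably many functions. `Act`: the numbers of the coordinate `κ` are at least `al` times the
length on most of the short intervals behind `q`. `ActN.good`: almost every scale where the numbers
of the full direction increase is active for one of the coordinates.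
-/

set_option autoImplicit false

namespace Pool.REX83

open Finset Real MeasureTheory Set Filter Topology
open Pool.Agent.H49.Ent Pool.Agent.H32.Dense Pool.STK Pool.KA Pool.K2S Pool.PB Pool.S6C
open Pool.GEN

/-! ### The first scale -/

/-- The first scale where `F` is at least `e`. -/
noncomputable def fp (F : ℝ → ℝ) (e : ℝ) : ℝ := sInf {p : ℝ | 0 ≤ p ∧ e ≤ F p}

theorem fp_bdd (F : ℝ → ℝ) (e : ℝ) : BddBelow {p : ℝ | 0 ≤ p ∧ e ≤ F p} := ⟨0, fun _ h => h.1⟩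

theorem fp_nonneg (F : ℝ → ℝ) (e : ℝ) : 0 ≤ fp F e := by
  rcases Set.eq_empty_or_nonempty {p : ℝ | 0 ≤ p ∧ e ≤ F p} with h | h
  · unfold fp
    rw [h, Real.sInf_empty]
  · exact le_csInf h fun p hp => hp.1

theorem fp_le {F : ℝ → ℝ} {e p : ℝ} (hp : 0 ≤ p) (h : e ≤ F p) : fp F e ≤ p :=
  csInf_le (fp_bdd F e) ⟨hp, h⟩

theorem fp_lt {F : ℝ → ℝ} {e p : ℝ} (hp : 0 ≤ p) (h : p < fp F e) : F p < e := by
  by_contra hcon
  exact absurd (fp_le hp (not_lt.1 hcon)) (not_le.2 h)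

theorem fp_ge {F : ℝ → ℝ} (hc : Continuous F) {e p : ℝ} (hp : 0 ≤ p) (h : e ≤ F p) :
    e ≤ F (fp F e) := by
  have hcl : IsClosed {p : ℝ | 0 ≤ p ∧ e ≤ F p} :=
    (isClosed_le continuous_const continuous_id).inter (isClosed_le continuous_const hc)
  exact (hcl.csInf_mem ⟨p, hp, h⟩ (fp_bdd F e)).2

theorem fp_pos {F : ℝ → ℝ} (hc : Continuous F) (h0 : F 0 ≤ 0) {e p : ℝ} (he : 0 < e) (hp : 0 ≤ p)
    (h : e ≤ F p) : 0 < fp F e := by
  rcases (fp_nonneg F e).lt_or_eq with h1 | h1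
  · exact h1
  · have := fp_ge hc hp h
    rw [← h1] at this
    linarith

theorem fp_eq {F : ℝ → ℝ} (hc : Continuous F) (h0 : F 0 ≤ 0) {e p : ℝ} (he : 0 < e) (hp : 0 ≤ p)
    (h : e ≤ F p) : F (fp F e) = e := by
  refine le_antisymm ?_ (fp_ge hc hp h)
  have h1 := fp_pos hc h0 he hp h
  refine le_of_tendsto (hc.continuousWithinAt (s := Set.Iio (fp F e))) ?_
  filter_upwards [Ico_mem_nhdsLT h1] with x hx
  exact (fp_lt hx.1 hx.2).le

theorem fp_anti {F F' : ℝ → ℝ} {e p : ℝ} (hc : Continuous F') (hp : 0 ≤ p) (h : e ≤ F' p)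
    (hF : ∀ x, 0 ≤ x → x ≤ p → F' x ≤ F x) : fp F e ≤ fp F' e := by
  have h1 := fp_ge hc hp h
  exact fp_le (fp_nonneg F' e) (h1.trans (hF _ (fp_nonneg F' e) (fp_le hp h)))

/-! ### Null sets of levels -/

/-- The image of a null set. -/
theorem img_null {F : ℝ → ℝ} {K : NNReal} (hF : LipschitzWith K F) {s : Set ℝ}
    (hs : volume s = 0) : volume (F '' s) = 0 := by
  have h1 := (hF.lipschitzOnWith (s := s)).hausdorffMeasure_image_le (d := 1) zero_le_one
  rw [MeasureTheory.hausdorffMeasure_real, hs, mul_zero] at h1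
  exact nonpos_iff_eq_zero.1 h1

/-- The image of the set where the derivative is zero. -/
theorem img_crit {F : ℝ → ℝ} : volume (F '' {p : ℝ | HasDerivAt F 0 p}) = 0 := by
  refine addHaar_image_eq_zero_of_det_fderivWithin_eq_zero (f' := fun _ => 0) volume
    (fun x hx => ?_) (fun x _ => ?_)
  · have h1 : HasDerivAt F 0 x := hx
    have h2 := h1.hasFDerivAt.hasFDerivWithinAt (s := {p : ℝ | HasDerivAt F 0 p})
    simpa using h2
  · rw [ContinuousLinearMap.det]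
    simp

/-- **Almost every level is good.** -/
theorem lev_ae {F : ℝ → ℝ} {K : NNReal} (hF : LipschitzWith K F)
    (hm : ∀ x y, 0 ≤ x → x ≤ y → y ≤ 1 → F x ≤ F y) {G : Set ℝ}
    (hG : ∀ᵐ p : ℝ, 0 < p → p < 1 → ∀ θ : ℝ, 0 < θ → HasDerivAt F θ p → p ∈ G) :
    ∀ᵐ e : ℝ, ∀ p : ℝ, 0 < p → p < 1 → F p = e → p ∈ G := by
  have hd : ∀ᵐ p : ℝ, DifferentiableAt ℝ F p := hF.ae_differentiableAt
  obtain ⟨s, hs⟩ : ∃ s : Set ℝ, s = {p : ℝ | ¬ ((0 < p → p < 1 → ∀ θ : ℝ, 0 < θ →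
    HasDerivAt F θ p → p ∈ G) ∧ DifferentiableAt ℝ F p)} := ⟨_, rfl⟩
  have hs0 : volume s = 0 := by
    rw [hs]
    exact hG.and hd
  have h1 := img_null hF hs0
  have h2 := img_crit (F := F)
  have h3 : ∀ᵐ e : ℝ, e ∉ F '' s ∧ e ∉ F '' {p : ℝ | HasDerivAt F 0 p} :=
    (measure_eq_zero_iff_ae_notMem.1 h1).and (measure_eq_zero_iff_ae_notMem.1 h2)
  filter_upwards [h3] with e he p hp0 hp1 hpe
  have h4 : p ∉ s := fun h => he.1 ⟨p, h, hpe⟩
  rw [hs, Set.mem_ofPred_eq, not_not] at h4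
  have h5 := h4.2.hasDerivAt
  refine h4.1 hp0 hp1 _ ?_ h5
  -- the derivative is nonnegative
  have h6 : 0 ≤ deriv F p := by
    have h7 := h5.tendsto_slope
    refine ge_of_tendsto h7 ?_
    have h8 : Ioo (0 : ℝ) 1 ∈ 𝓝[≠] p := mem_nhdsWithin_of_mem_nhds (Ioo_mem_nhds hp0 hp1)
    filter_upwards [h8] with x hx
    rw [slope_def_field]
    rcases le_total x p with h9 | h9
    · exact div_nonneg_of_nonpos (by linarith [hm x p hx.1.le h9 hp1.le]) (by linarith)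
    · exact div_nonneg (by linarith [hm p x hp0.le h9 hx.2.le]) (by linarith)
  rcases h6.lt_or_eq with h7 | h7
  · exact h7
  · exfalso
    refine he.2 ⟨p, ?_, hpe⟩
    rw [← h7] at h5
    exact h5

/-! ### Active scales -/

/-- **The numbers `N` are active behind `q`.** -/
def Act (N : ℝ → ℝ → ℝ) (q al : ℝ) : Prop := ∀ ε : ℝ, 0 < ε → ∃ g₀ : ℝ, 0 < g₀ ∧
  ∀ g : ℝ, 0 < g → g ≤ g₀ → q + g ≤ 1 → ∀ M : ℕ, 0 < M → ∃ Gd ⊆ Finset.range M,
    (1 - ε) * M ≤ Gd.card ∧ ∀ l ∈ Gd, (al - ε) * (g / M) ≤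
      N (q + g * l / M) (q + g * (l + 1 : ℕ) / M)

theorem ivi {b : ℝ → ℝ} (hm : Measurable b) {K : ℝ} (h0 : ∀ x, 0 ≤ b x) (hK : ∀ x, b x ≤ K)
    (x y : ℝ) : IntervalIntegrable b volume x y := by
  refine (intervalIntegrable_const (c := K)).mono_fun hm.aestronglyMeasurable
    (ae_of_all _ fun t => ?_)
  show ‖b t‖ ≤ ‖K‖
  rw [Real.norm_eq_abs, Real.norm_eq_abs, abs_of_nonneg (h0 t)]
  exact (hK t).trans (le_abs_self K)

/-- Lebesgue points are active. -/
theorem act_leb {N : ℝ → ℝ → ℝ} {b : ℝ → ℝ} {K : ℝ} (hm : Measurable b) (h0 : ∀ x, 0 ≤ b x)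
    (hK : ∀ x, b x ≤ K)
    (hint : ∀ x y, 0 ≤ x → x ≤ y → y ≤ 1 → ∫ t in x..y, b t ≤ N x y) {q : ℝ} (hq0 : 0 ≤ q)
    (hqL : ∀ ε : ℝ, 0 < ε → ∃ g₀ : ℝ, 0 < g₀ ∧ ∀ g : ℝ, 0 < g → g ≤ g₀ →
      ∫ t in q..(q + g), |b t - b q| ≤ ε * g) : Act N q (b q) := by
  classical
  have hii := ivi hm h0 hK
  intro ε hε
  obtain ⟨g₀, hg₀, hL⟩ := hqL (ε * ε) (by positivity)
  refine ⟨g₀, hg₀, fun g hg hgg hqg M hM => ?_⟩
  have hMR : (0 : ℝ) < M := by exact_mod_cast hM
  obtain ⟨x, hx⟩ : ∃ x : ℕ → ℝ, x = fun l : ℕ => q + g * (l : ℝ) / M := ⟨_, rfl⟩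
  have hxx : ∀ l, x (l + 1) - x l = g / M := by
    intro l
    rw [hx]
    push_cast
    ring
  have hgM : 0 < g / M := by positivity
  have hxle : ∀ l, x l ≤ x (l + 1) := fun l => by linarith [hxx l]
  have hx0 : ∀ l, 0 ≤ x l := fun l => by
    rw [hx]
    have : 0 ≤ g * l / M := by positivity
    simp only
    linarith
  have hx1 : ∀ l ≤ M, x l ≤ 1 := by
    intro l hl
    rw [hx]
    have h2 : g * l / M ≤ g := by
      rw [div_le_iff₀ hMR]
      have : (l : ℝ) ≤ M := by exact_mod_cast hl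
      nlinarith
    simp only
    linarith
  have hx00 : x 0 = q := by rw [hx]; simp
  have hxM : x M = q + g := by
    rw [hx]
    field_simp
  have hia : ∀ u v, IntervalIntegrable (fun t => |b t - b q|) volume u v := fun u v =>
    ((hii u v).sub intervalIntegrable_const).abs
  obtain ⟨Gd, hGd⟩ : ∃ Gd : Finset ℕ, Gd = (Finset.range M).filter fun l =>
    (b q - ε) * (g / M) ≤ N (x l) (x (l + 1)) := ⟨_, rfl⟩
  refine ⟨Gd, by rw [hGd]; exact Finset.filter_subset _ _, ?_, ?_⟩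
  · obtain ⟨Bd, hBd⟩ : ∃ Bd : Finset ℕ, Bd = (Finset.range M).filter fun l =>
      ¬ (b q - ε) * (g / M) ≤ N (x l) (x (l + 1)) := ⟨_, rfl⟩
    have hc : (Gd.card : ℝ) + Bd.card = M := by
      have := Finset.card_filter_add_card_filter_not (s := Finset.range M)
        (fun l => (b q - ε) * (g / M) ≤ N (x l) (x (l + 1)))
      rw [hGd, hBd]
      rw [Finset.card_range] at this
      exact_mod_cast this
    have h2 : ∀ l ∈ Bd, ε * (g / M) ≤ ∫ t in (x l)..(x (l + 1)), |b t - b q| := by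
      intro l hl
      rw [hBd, Finset.mem_filter, Finset.mem_range, not_le] at hl
      have h3 := hint (x l) (x (l + 1)) (hx0 l) (hxle l) (hx1 _ hl.1)
      have h4 : ∫ t in (x l)..(x (l + 1)), (b q - b t) ≤
          ∫ t in (x l)..(x (l + 1)), |b t - b q| := by
        refine intervalIntegral.integral_mono_on (hxle l)
          (intervalIntegrable_const.sub (hii _ _)) (hia _ _) fun t _ => ?_
        rw [abs_sub_comm]
        exact le_abs_self _
      rw [intervalIntegral.integral_sub intervalIntegrable_const (hii _ _),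
        intervalIntegral.integral_const, smul_eq_mul, hxx l] at h4
      nlinarith
    have h3 : (Bd.card : ℝ) * (ε * (g / M)) ≤ ε * ε * g := by
      calc (Bd.card : ℝ) * (ε * (g / M)) = ∑ _l ∈ Bd, ε * (g / M) := by
            rw [Finset.sum_const, nsmul_eq_mul]
        _ ≤ ∑ l ∈ Bd, ∫ t in (x l)..(x (l + 1)), |b t - b q| := Finset.sum_le_sum h2
        _ ≤ ∑ l ∈ Finset.range M, ∫ t in (x l)..(x (l + 1)), |b t - b q| := by
            refine Finset.sum_le_sum_of_subset_of_nonneg ?_ fun l _ _ => ?_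
            · rw [hBd]
              exact Finset.filter_subset _ _
            · exact intervalIntegral.integral_nonneg (hxle l) fun t _ => abs_nonneg _
        _ = ∫ t in (x 0)..(x M), |b t - b q| :=
            intervalIntegral.sum_integral_adjacent_intervals fun k _ => hia _ _
        _ ≤ ε * ε * g := by
            rw [hx00, hxM]
            exact hL g hg hgg
    have h4 : (Bd.card : ℝ) ≤ ε * M := by
      have h5 : (Bd.card : ℝ) * (ε * (g / M)) = (Bd.card : ℝ) / M * (ε * g) := by ring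
      have h6 : ε * ε * g = ε * (ε * g) := by ring
      rw [h5, h6] at h3
      have h7 := le_of_mul_le_mul_right h3 (by positivity)
      rwa [div_le_iff₀ hMR] at h7
    nlinarith
  · intro l hl
    rw [hGd, Finset.mem_filter] at hl
    have h2 := hl.2
    rw [hx] at h2
    exact h2

/-- The additive numbers are at most the integrals of the densities. -/
theorem le_int {ι : Type} [Fintype ι] {N : ι → ℝ → ℝ → ℝ} {U : ℝ → ℝ → ℝ} {b : ι → ℝ → ℝ} {K : ℝ}
    (hm : ∀ i, Measurable (b i)) (h0 : ∀ i x, 0 ≤ b i x) (hK : ∀ i x, b i x ≤ K)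
    (hadd : ∀ x y z : ℝ, 0 ≤ x → x ≤ y → y ≤ z → z ≤ 1 → U x z ≤ U x y + U y z)
    (hsum : ∀ x y : ℝ, 0 ≤ x → x ≤ y → y ≤ 1 → U x y ≤ ∑ i, N i x y)
    (hU0 : ∀ x : ℝ, 0 ≤ x → x ≤ 1 → U x x ≤ 0)
    (hmesh : ∀ i, ∀ eps > 0, ∃ del > 0, ∀ (M : ℕ) (x : ℕ → ℝ), Monotone x → 0 ≤ x 0 → x M ≤ 1 →
      (∀ i < M, x (i + 1) - x i ≤ del) →
        ∑ k ∈ Finset.range M, |N i (x k) (x (k + 1)) - ∫ t in (x k)..(x (k + 1)), b i t| ≤ eps)
    {x y : ℝ} (hx : 0 ≤ x) (hxy : x ≤ y) (hy : y ≤ 1) :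
    U x y ≤ ∑ i, ∫ t in x..y, b i t := by
  classical
  have hii : ∀ i x y, IntervalIntegrable (b i) volume x y := fun i => ivi (hm i) (h0 i) (hK i)
  refine le_of_forall_pos_le_add fun e he => ?_
  have he1 : 0 < e / (Fintype.card ι + 1) := by positivity
  choose del hdel hd using fun i => hmesh i _ he1
  obtain ⟨D, hD0, hD⟩ : ∃ D : ℝ, 0 < D ∧ ∀ i, D ≤ del i := by
    rcases isEmpty_or_nonempty ι with hem | hne
    · exact ⟨1, one_pos, fun i => hem.elim i⟩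
    · obtain ⟨i₀, -, hi₀⟩ := Finset.exists_min_image (Finset.univ : Finset ι) del
        Finset.univ_nonempty
      exact ⟨del i₀, hdel i₀, fun i => hi₀ i (Finset.mem_univ i)⟩
  obtain ⟨M', hM'⟩ := exists_nat_ge ((y - x) / D)
  obtain ⟨M, hM⟩ : ∃ M, M = M' + 1 := ⟨_, rfl⟩
  have hM0 : 0 < M := by omega
  have hMR : (0 : ℝ) < M := by exact_mod_cast hM0
  have hMM : (y - x) / D ≤ M := hM'.trans (by rw [hM]; push_cast; linarith)
  obtain ⟨z, hz⟩ : ∃ z : ℕ → ℝ, z = fun l : ℕ => x + (y - x) * (l : ℝ) / M := ⟨_, rfl⟩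
  have hyx : 0 ≤ y - x := by linarith
  have hzm : Monotone z := by
    intro l l' hll
    have h1 : (l : ℝ) ≤ l' := by exact_mod_cast hll
    rw [hz]
    simp only
    have := div_le_div_of_nonneg_right (mul_le_mul_of_nonneg_left h1 hyx) hMR.le
    linarith
  have hz0 : z 0 = x := by rw [hz]; simp
  have hzM : z M = y := by
    rw [hz]
    field_simp
    ring
  have hz00 : ∀ l, 0 ≤ z l := fun l => hx.trans (hz0 ▸ hzm (Nat.zero_le l))
  have hz1 : ∀ l ≤ M, z l ≤ 1 := fun l hl => (hzm hl).trans (hzM.le.trans hy)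
  have hzd : ∀ l, z (l + 1) - z l = (y - x) / M := by
    intro l
    rw [hz]
    push_cast
    ring
  have hzD : (y - x) / M ≤ D := by
    rw [div_le_iff₀ hMR]
    rw [div_le_iff₀ hD0] at hMM
    linarith
  have hUs : ∀ l ≤ M, U (z 0) (z l) ≤ ∑ k ∈ Finset.range l, U (z k) (z (k + 1)) := by
    intro l
    induction l with
    | zero => intro _; simpa using hU0 (z 0) (hz00 0) (hz1 0 (Nat.zero_le M))
    | succ l ih =>
      intro hl
      rw [Finset.sum_range_succ]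
      have := hadd (z 0) (z l) (z (l + 1)) (hz00 0) (hzm (Nat.zero_le l)) (hzm (Nat.le_succ l))
        (hz1 _ hl)
      linarith [ih (by omega)]
  have h2 := hUs M le_rfl
  rw [hz0, hzM] at h2
  have h3 : ∑ k ∈ Finset.range M, U (z k) (z (k + 1)) ≤
      ∑ i, ∑ k ∈ Finset.range M, N i (z k) (z (k + 1)) := by
    rw [Finset.sum_comm]
    refine Finset.sum_le_sum fun k hk => ?_
    rw [Finset.mem_range] at hk
    exact hsum _ _ (hz00 k) (hzm (Nat.le_succ k)) (hz1 _ hk)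
  have h4 : ∀ i, ∑ k ∈ Finset.range M, N i (z k) (z (k + 1)) ≤
      (∫ t in x..y, b i t) + e / (Fintype.card ι + 1) := by
    intro i
    have h5 := hd i M z hzm (hz00 0) (hz1 M le_rfl) (fun k _ => by
      rw [hzd]
      exact hzD.trans (hD i))
    have h6 : ∑ k ∈ Finset.range M, ∫ t in (z k)..(z (k + 1)), b i t =
        ∫ t in (z 0)..(z M), b i t :=
      intervalIntegral.sum_integral_adjacent_intervals fun k _ => hii i _ _
    have h7 : ∑ k ∈ Finset.range M, N i (z k) (z (k + 1)) -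
        ∑ k ∈ Finset.range M, ∫ t in (z k)..(z (k + 1)), b i t ≤ e / (Fintype.card ι + 1) := by
      rw [← Finset.sum_sub_distrib]
      exact le_trans (Finset.sum_le_sum fun k _ => le_abs_self _) h5
    rw [h6, hz0, hzM] at h7
    linarith
  have h5 : ∑ i, ∑ k ∈ Finset.range M, N i (z k) (z (k + 1)) ≤
      ∑ i, (∫ t in x..y, b i t) + Fintype.card ι * (e / (Fintype.card ι + 1)) := by
    calc _ ≤ ∑ i, ((∫ t in x..y, b i t) + e / (Fintype.card ι + 1)) :=
          Finset.sum_le_sum fun i _ => h4 i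
      _ = _ := by rw [Finset.sum_add_distrib, Finset.sum_const, Finset.card_univ, nsmul_eq_mul]
  have h6 : (Fintype.card ι : ℝ) * (e / (Fintype.card ι + 1)) ≤ e := by
    rw [mul_div_assoc', div_le_iff₀ (by positivity)]
    nlinarith
  linarith

/-- **Almost every scale where the additive numbers increase is active.** -/
theorem act_ae {ι : Type} [Fintype ι] {N : ι → ℝ → ℝ → ℝ} {U : ℝ → ℝ → ℝ} {b : ι → ℝ → ℝ} {K : ℝ}
    (hm : ∀ i, Measurable (b i)) (h0 : ∀ i x, 0 ≤ b i x) (hK : ∀ i x, b i x ≤ K)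
    (hint : ∀ i x y, 0 ≤ x → x ≤ y → y ≤ 1 → ∫ t in x..y, b i t ≤ N i x y)
    (hle : ∀ x y, 0 ≤ x → x ≤ y → y ≤ 1 → U 0 y - U 0 x ≤ ∑ i, ∫ t in x..y, b i t) :
    ∀ᵐ p : ℝ, 0 < p → p < 1 → ∀ θ : ℝ, 0 < θ → HasDerivAt (fun x => U 0 x) θ p →
      ∃ i, 0 < b i p ∧ Act (N i) p (b i p) := by
  have h1 : ∀ᵐ p : ℝ, ∀ i, ∀ ε : ℝ, 0 < ε → ∃ g₀ : ℝ, 0 < g₀ ∧ ∀ g : ℝ, 0 < g → g ≤ g₀ →
      ∫ t in p..(p + g), |b i t - b i p| ≤ ε * g :=
    ae_all_iff.2 fun i => leb (hm i) (h0 i) (hK i)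
  filter_upwards [h1] with p hp hp0 hp1 θ hθ hd
  by_cases hb : ∃ i, 0 < b i p
  · obtain ⟨i, hi⟩ := hb
    exact ⟨i, hi, act_leb (hm i) (h0 i) (hK i) (hint i) hp0.le (hp i)⟩
  · exfalso
    push Not at hb
    have hb0 : ∀ i, b i p = 0 := fun i => le_antisymm (hb i) (h0 i p)
    obtain ⟨e, he⟩ : ∃ e : ℝ, e = θ / (4 * (Fintype.card ι + 1)) := ⟨_, rfl⟩
    have he0 : 0 < e := by rw [he]; positivity
    choose g₀ hg₀ hL using fun i => hp i e he0
    obtain ⟨D, hD0, hD⟩ : ∃ D : ℝ, 0 < D ∧ ∀ i, D ≤ g₀ i := by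
      rcases isEmpty_or_nonempty ι with hem | hne
      · exact ⟨1, one_pos, fun i => hem.elim i⟩
      · obtain ⟨i₀, -, hi₀⟩ := Finset.exists_min_image (Finset.univ : Finset ι) g₀
          Finset.univ_nonempty
        exact ⟨g₀ i₀, hg₀ i₀, fun i => hi₀ i (Finset.mem_univ i)⟩
    have h2 := (hasDerivAt_iff_tendsto_slope.1 hd).mono_left
      (nhdsWithin_mono p (fun y (hy : y ∈ Set.Ioi p) => ne_of_gt hy))
    have h3 := h2.eventually (Ioi_mem_nhds (show θ / 2 < θ by linarith))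
    have h4 : ∀ᶠ y in 𝓝[>] p, y < 1 ∧ y ≤ p + D := by
      filter_upwards [Ioo_mem_nhdsGT (show p < min 1 (p + D) from lt_min hp1 (by linarith))]
        with y hy
      exact ⟨hy.2.trans_le (min_le_left _ _), (hy.2.trans_le (min_le_right _ _)).le⟩
    have h5 : ∀ᶠ y in 𝓝[>] p, p < y := self_mem_nhdsWithin
    obtain ⟨y, hy1, hy2, hy3⟩ := (h3.and (h4.and h5)).exists
    have hyp : 0 < y - p := by linarith
    have h6 : θ / 2 * (y - p) < U 0 y - U 0 p := by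
      have h7 : θ / 2 < slope (fun x => U 0 x) p y := hy1
      rw [slope_def_field, lt_div_iff₀ hyp] at h7
      exact h7
    have h7 := hle p y hp0.le hy3.le hy2.1.le
    have h8 : ∀ i, ∫ t in p..y, b i t ≤ e * (y - p) := by
      intro i
      have h9 := hL i (y - p) hyp (by linarith [hD i])
      rw [hb0 i, add_sub_cancel] at h9
      refine le_trans (le_of_eq (intervalIntegral.integral_congr fun t _ => ?_)) h9
      simp only [sub_zero]
      exact (abs_of_nonneg (h0 i t)).symm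
    have h9 : ∑ i, ∫ t in p..y, b i t ≤ Fintype.card ι * (e * (y - p)) := by
      calc _ ≤ ∑ _i : ι, e * (y - p) := Finset.sum_le_sum fun i _ => h8 i
        _ = _ := by rw [Finset.sum_const, Finset.card_univ, nsmul_eq_mul]
    have h10 : (Fintype.card ι : ℝ) * (e * (y - p)) ≤ θ / 4 * (y - p) := by
      rw [← mul_assoc]
      refine mul_le_mul_of_nonneg_right ?_ hyp.le
      rw [he, mul_div_assoc', div_le_iff₀ (by positivity)]
      nlinarith
    nlinarith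

/-- The numbers of the full direction are a Lipschitz function, on the real line. -/
noncomputable def ttl {m : ℕ} (N : Finset (Fin m) → ℝ → ℝ → ℝ) (x : ℝ) : ℝ := N univ 0 x

theorem ttl_lip {m : ℕ} {S : PCl m} {N : Finset (Fin m) → ℝ → ℝ → ℝ} (hN : ActN S N) :
    LipschitzWith m (ttl N) := by
  refine LipschitzWith.of_dist_le_mul fun x y => ?_
  rw [Real.dist_eq, Real.dist_eq, NNReal.coe_natCast]
  have h1 := hN.lip univ 0 x 0 y
  have h2 := hN.lip univ 0 y 0 x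
  rw [sub_self, abs_zero, zero_add] at h1 h2
  rw [abs_sub_comm y x] at h2
  unfold ttl
  rw [abs_le]
  constructor <;> linarith

theorem ttl_zero {m : ℕ} {S : PCl m} {N : Finset (Fin m) → ℝ → ℝ → ℝ} (hN : ActN S N) :
    ttl N 0 = 0 := (hN.sa univ).self le_rfl zero_le_one

theorem ttl_mono {m : ℕ} {S : PCl m} {N : Finset (Fin m) → ℝ → ℝ → ℝ} (hN : ActN S N) {x y : ℝ}
    (hx : 0 ≤ x) (hxy : x ≤ y) (hy : y ≤ 1) : ttl N x ≤ ttl N y := by
  have h1 := hN.add 0 x y le_rfl hx hxy hy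
  have h2 := hN.nonneg univ x y hx (hxy.trans hy) (hx.trans hxy) hy
  unfold ttl
  linarith

/-- **Good scales of a class.** -/
def GSc {m : ℕ} (N : Finset (Fin m) → ℝ → ℝ → ℝ) (p : ℝ) : Prop :=
  ∃ (κ : Fin m) (al : ℝ), 0 < al ∧ Act (N {κ}) p al

/-- **Almost every scale where the numbers of the full direction increase is good.** -/
theorem gsc_ae {m : ℕ} {S : PCl m} {N : Finset (Fin m) → ℝ → ℝ → ℝ} (hN : ActN S N) :
    ∀ᵐ p : ℝ, 0 < p → p < 1 → ∀ θ : ℝ, 0 < θ → HasDerivAt (ttl N) θ p → GSc N p := by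
  have hmain : ∀ κ : Fin m, ∃ F b : ℝ → ℝ, Measurable b ∧ (∀ q, 0 ≤ b q) ∧ (∀ q, b q ≤ m) ∧
      (∀ x y, ∫ t in x..y, b t = F y - F x) ∧
      (∀ x y, 0 ≤ x → x ≤ y → y ≤ 1 → F y - F x ≤ N {κ} x y) ∧
      (∀ eps > 0, ∃ del > 0, ∀ (M : ℕ) (x : ℕ → ℝ), Monotone x → 0 ≤ x 0 → x M ≤ 1 →
        (∀ i < M, x (i + 1) - x i ≤ del) →
          ∑ i ∈ Finset.range M, |N {κ} (x i) (x (i + 1)) - (F (x (i + 1)) - F (x i))| ≤ eps) := by
    intro κ
    obtain ⟨F, b, -, -, -, h1, h2, h3, h4, h5, -, h6⟩ := Pool.SUPA.main (hN.sa {κ})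
    exact ⟨F, b, h1, h2, h3, h4, h5, h6⟩
  choose F b h1 h2 h3 h4 h5 h6 using hmain
  have h7 := act_ae (N := fun κ => N {κ}) (U := N univ) h1 h2 h3 (fun κ x y a1 a2 a3 => by
    rw [h4 κ x y]
    exact h5 κ x y a1 a2 a3) (fun x y a1 a2 a3 => by
    have e1 := hN.add 0 x y le_rfl a1 a2 a3
    have e2 := le_int (N := fun κ => N {κ}) (U := N univ) h1 h2 h3
      (fun x y z a1 a2 a3 a4 => (hN.add x y z a1 a2 a3 a4).ge)
      (fun x y a1 a2 a3 => hN.sum x y a1 a2 a3) (fun x a1 a2 => ((hN.sa univ).self a1 a2).le)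
      (fun κ e he => by
        obtain ⟨del, hdel, h8⟩ := h6 κ e he
        refine ⟨del, hdel, fun M x k1 k2 k3 k4 => ?_⟩
        refine le_trans (le_of_eq (Finset.sum_congr rfl fun l _ => ?_)) (h8 M x k1 k2 k3 k4)
        rw [h4 κ]) a1 a2 a3
    linarith)
  filter_upwards [h7] with p hp a1 a2 θ a3 a4
  obtain ⟨κ, h8, h9⟩ := hp a1 a2 θ a3 a4
  exact ⟨κ, b κ p, h8, h9⟩

/-- **Generic levels**, for countably many classes. -/
theorem lev_gen {ι : Type} [Countable ι] {m : ℕ} {S : ι → PCl m}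
    {N : ι → Finset (Fin m) → ℝ → ℝ → ℝ} (hN : ∀ i, ActN (S i) (N i)) {e₀ : ℝ} (he₀ : 0 < e₀) :
    ∃ e : ℝ, 0 < e ∧ e < e₀ ∧ ∀ i, ∀ q₁ : ℝ, 0 ≤ q₁ → q₁ ≤ 1 → e < ttl (N i) q₁ →
      0 < fp (ttl (N i)) e ∧ fp (ttl (N i)) e < q₁ ∧ ttl (N i) (fp (ttl (N i)) e) = e ∧
        GSc (N i) (fp (ttl (N i)) e) := by
  have h1 : ∀ᵐ e : ℝ, ∀ i, ∀ p : ℝ, 0 < p → p < 1 → ttl (N i) p = e → p ∈ {p | GSc (N i) p} :=
    ae_all_iff.2 fun i => lev_ae (ttl_lip (hN i)) (fun x y a1 a2 a3 => ttl_mono (hN i) a1 a2 a3)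
      (gsc_ae (hN i))
  obtain ⟨e, he, he'⟩ : ∃ e ∈ Ioo 0 e₀, ∀ i, ∀ p : ℝ, 0 < p → p < 1 → ttl (N i) p = e →
      p ∈ {p | GSc (N i) p} := by
    by_contra hcon
    push Not at hcon
    have h2 : volume (Ioo 0 e₀) = 0 := by
      refine measure_mono_null (fun e he => ?_) h1
      obtain ⟨i, p, a1, a2, a3, a4⟩ := hcon e he
      simp only [Set.mem_compl_iff, Set.mem_ofPred_eq]
      intro h
      exact a4 (h i p a1 a2 a3)
    rw [Real.volume_Ioo, ENNReal.ofReal_eq_zero] at h2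
    linarith
  refine ⟨e, he.1, he.2, fun i q₁ hq0 hq1 hlt => ?_⟩
  have hc := (ttl_lip (hN i)).continuous
  have h3 := fp_pos hc (ttl_zero (hN i)).le he.1 hq0 hlt.le
  have h4 := fp_eq hc (ttl_zero (hN i)).le he.1 hq0 hlt.le
  have h5 : fp (ttl (N i)) e < q₁ := by
    refine lt_of_le_of_ne (fp_le hq0 hlt.le) fun h => ?_
    rw [h] at h4
    linarith
  exact ⟨h3, h5, h4, he' i _ h3 (h5.trans_le hq1) h4⟩

end Pool.REX83
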